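import Pool.Agent.W5h84.Seg.Tower

/-!
# The groups `(V ⊕ V) : A₅`, `V` the sum-zero vectors of `R⁵`
-/

set_option linter.unusedSectionVars false

namespace Pool.Agent.W5h84.Seg

open Rig Rig.Wr
open scoped commutatorElement

/-- the alternating group of degree five -/
abbrev A5 := alternatingGroup (Fin 5)

/-- the group `(V ⊕ V) : A₅` -/
@[ext] structure E (R : Type) [CommRing R] where
  /-- translation part -/
  t : Bool → Fin 5 → R
  /-- linear part -/
  g : A5
  /-- sum zero -/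
  h : ∀ c, ∑ i, t c i = 0

/-- the space `V ⊕ V` -/
@[ext] structure Y (R : Type) [CommRing R] where
  /-- the vector -/
  y : Bool → Fin 5 → R
  /-- sum zero -/
  h : ∀ c, ∑ i, y c i = 0

variable {R : Type} [CommRing R]

/-- the action of `A₅` on one component -/
def ac1 (g : A5) (w : Fin 5 → R) : Fin 5 → R := fun i => w (g.1⁻¹ i)

lemma ac1_apply (g : A5) (w : Fin 5 → R) (i : Fin 5) : ac1 g w i = w (g.1⁻¹ i) := rfl

lemma sum_ac1 (g : A5) (w : Fin 5 → R) : ∑ i, ac1 g w i = ∑ i, w i :=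
  Equiv.sum_comp (g.1⁻¹) w

namespace E

instance : Mul (E R) where
  mul u v := ⟨fun c => u.t c + ac1 u.g (v.t c), u.g * v.g, fun c => by
    have := sum_ac1 u.g (v.t c)
    simp only [Pi.add_apply, Finset.sum_add_distrib, this, u.h, v.h, add_zero]⟩

instance : One (E R) where
  one := ⟨fun _ _ => 0, 1, by simp⟩

instance : Inv (E R) where
  inv u := ⟨fun c => - ac1 u.g⁻¹ (u.t c), u.g⁻¹, fun c => by
    have := sum_ac1 u.g⁻¹ (u.t c)
    simp only [Pi.neg_apply, Finset.sum_neg_distrib, this, u.h, neg_zero]⟩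

@[simp] lemma mul_t (u v : E R) (c : Bool) (i : Fin 5) :
    (u * v).t c i = u.t c i + v.t c (u.g.1⁻¹ i) := rfl
@[simp] lemma mul_g (u v : E R) : (u * v).g = u.g * v.g := rfl
@[simp] lemma one_t (c : Bool) (i : Fin 5) : (1 : E R).t c i = 0 := rfl
@[simp] lemma one_g : (1 : E R).g = 1 := rfl
@[simp] lemma inv_t (u : E R) (c : Bool) (i : Fin 5) : (u⁻¹).t c i = - u.t c (u.g.1 i) := by
  change - u.t c ((u.g⁻¹).1⁻¹ i) = _
  simp
@[simp] lemma inv_g (u : E R) : (u⁻¹).g = u.g⁻¹ := rfl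

lemma ext' {u v : E R} (h : ∀ c i, u.t c i = v.t c i) (hg : u.g = v.g) : u = v :=
  E.ext (funext fun c => funext fun i => h c i) hg

instance : Group (E R) :=
  Group.ofLeftAxioms
    (by
      intro u v w
      refine ext' (fun c i => ?_) (by simp [mul_assoc])
      simp [add_assoc])
    (by
      intro u
      exact ext' (fun c i => by simp) (by simp))
    (by
      intro u
      exact ext' (fun c i => by simp) (by simp))

instance : MulAction (E R) (Y R) where
  smul u y := ⟨fun c => u.t c + ac1 u.g (y.y c), fun c => by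
    have := sum_ac1 u.g (y.y c)
    simp only [Pi.add_apply, Finset.sum_add_distrib, this, u.h, y.h, add_zero]⟩
  one_smul y := by
    refine Y.ext (funext fun c => funext fun i => ?_)
    change (1 : E R).t c i + y.y c ((1 : E R).g.1⁻¹ i) = y.y c i
    simp
  mul_smul u v y := by
    refine Y.ext (funext fun c => funext fun i => ?_)
    change (u * v).t c i + y.y c ((u * v).g.1⁻¹ i) =
      u.t c i + (v.t c (u.g.1⁻¹ i) + y.y c (v.g.1⁻¹ (u.g.1⁻¹ i)))
    simp [add_assoc]

lemma smul_y (u : E R) (y : Y R) (c : Bool) (i : Fin 5) :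
    (u • y).y c i = u.t c i + y.y c (u.g.1⁻¹ i) := rfl

/-- translations -/
def tl (t : Bool → Fin 5 → R) (h : ∀ c, ∑ i, t c i = 0) : E R := ⟨t, 1, h⟩

/-- the embedding of `A₅` -/
def inj : A5 →* E R where
  toFun g := ⟨fun _ _ => 0, g, by simp⟩
  map_one' := rfl
  map_mul' g h := ext' (fun c i => by simp) rfl

@[simp] lemma tl_t (t : Bool → Fin 5 → R) (h : ∀ c, ∑ i, t c i = 0) (c : Bool) (i : Fin 5) :
    (tl t h).t c i = t c i := rfl
@[simp] lemma tl_g (t : Bool → Fin 5 → R) (h : ∀ c, ∑ i, t c i = 0) : (tl t h).g = 1 := rfl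
@[simp] lemma inj_t (g : A5) (c : Bool) (i : Fin 5) : (inj g : E R).t c i = 0 := rfl
@[simp] lemma inj_g (g : A5) : (inj g : E R).g = g := rfl

lemma eq_tl_mul_inj (u : E R) : u = tl u.t u.h * inj u.g :=
  ext' (fun c i => by simp) (by simp)

/-- the translations in a subgroup -/
def TS (H : Subgroup (E R)) : AddSubgroup (Bool → Fin 5 → R) where
  carrier := {t | ∃ h, tl t h ∈ H}
  add_mem' := by
    rintro s t ⟨hs, hs'⟩ ⟨ht, ht'⟩
    refine ⟨fun c => by simp [Finset.sum_add_distrib, hs, ht], ?_⟩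
    have := H.mul_mem hs' ht'
    convert this using 1
    refine ext' (fun c i => ?_) (by simp)
    simp
  zero_mem' := ⟨by simp, by
    have : (tl (0 : Bool → Fin 5 → R) (by simp)) = 1 := rfl
    rw [this]; exact H.one_mem⟩
  neg_mem' := by
    rintro s ⟨hs, hs'⟩
    refine ⟨fun c => by simp [hs], ?_⟩
    have := H.inv_mem hs'
    convert this using 1
    refine ext' (fun c i => ?_) (by simp)
    simp

lemma mem_TS {H : Subgroup (E R)} {t : Bool → Fin 5 → R} : t ∈ TS H ↔ ∃ h, tl t h ∈ H := Iff.rfl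

lemma TS_sum {H : Subgroup (E R)} {t : Bool → Fin 5 → R} (ht : t ∈ TS H) (c : Bool) :
    ∑ i, t c i = 0 := by
  obtain ⟨h, _⟩ := ht
  exact h c

lemma TS_tl {H : Subgroup (E R)} {t : Bool → Fin 5 → R} (ht : t ∈ TS H)
    (h : ∀ c, ∑ i, t c i = 0) : tl t h ∈ H := by
  obtain ⟨h, h'⟩ := ht
  exact h'

end E

/-- the vector `r (e_i - e_j)` -/
def vec (i j : Fin 5) (r : R) : Fin 5 → R := Pi.single i r - Pi.single j r

lemma vec_apply (i j : Fin 5) (r : R) (k : Fin 5) :
    vec i j r k = (if k = i then r else 0) - (if k = j then r else 0) := by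
  simp [vec, Pi.single_apply]

lemma sum_vec (i j : Fin 5) (r : R) : ∑ k, vec i j r k = 0 := by
  simp [vec_apply]

lemma ac1_vec (g : A5) (i j : Fin 5) (r : R) : ac1 g (vec i j r) = vec (g.1 i) (g.1 j) r := by
  funext k
  rw [ac1_apply, vec_apply, vec_apply]
  have h1 : ∀ i, (g.1⁻¹ k = i) = (k = g.1 i) := by
    intro i
    rw [Equiv.Perm.inv_eq_iff_eq]
  simp only [h1]

/-- a 3-cycle -/
def cyc (i j k : Fin 5) (hij : i ≠ j) (hjk : j ≠ k) : A5 :=
  ⟨Equiv.swap i j * Equiv.swap j k, by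
    rw [Equiv.Perm.mem_alternatingGroup, Equiv.Perm.sign_mul, Equiv.Perm.sign_swap hij,
      Equiv.Perm.sign_swap hjk]
    rfl⟩

lemma cyc_i {i j k : Fin 5} (hij : i ≠ j) (hjk : j ≠ k) (hik : i ≠ k) :
    (cyc i j k hij hjk).1 i = j := by
  change Equiv.swap i j (Equiv.swap j k i) = j
  rw [Equiv.swap_apply_of_ne_of_ne hij hik, Equiv.swap_apply_left]

lemma cyc_j {i j k : Fin 5} (hij : i ≠ j) (hjk : j ≠ k) (hik : i ≠ k) :
    (cyc i j k hij hjk).1 j = k := by
  change Equiv.swap i j (Equiv.swap j k j) = k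
  rw [Equiv.swap_apply_left, Equiv.swap_apply_of_ne_of_ne hik.symm hjk.symm]

lemma cyc_k {i j k : Fin 5} (hij : i ≠ j) (hjk : j ≠ k) :
    (cyc i j k hij hjk).1 k = i := by
  change Equiv.swap i j (Equiv.swap j k k) = i
  rw [Equiv.swap_apply_right, Equiv.swap_apply_right]

lemma cyc_o {i j k l : Fin 5} (hij : i ≠ j) (hjk : j ≠ k) (hli : l ≠ i) (hlj : l ≠ j)
    (hlk : l ≠ k) : (cyc i j k hij hjk).1 l = l := by
  change Equiv.swap i j (Equiv.swap j k l) = l
  rw [Equiv.swap_apply_of_ne_of_ne hlj hlk, Equiv.swap_apply_of_ne_of_ne hli hlj]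

lemma other (i j : Fin 5) : ∃ k l : Fin 5, k ≠ i ∧ k ≠ j ∧ l ≠ i ∧ l ≠ j ∧ k ≠ l := by
  revert i j; decide

lemma other3 (i j k : Fin 5) : ∃ l m : Fin 5, l ≠ i ∧ l ≠ j ∧ l ≠ k ∧ m ≠ i ∧ m ≠ j ∧ m ≠ k ∧
    l ≠ m := by
  revert i j k; decide

lemma two_trans {i j i' j' : Fin 5} (h : i ≠ j) (h' : i' ≠ j') : ∃ g : A5, g.1 i = i' ∧
    g.1 j = j' := by
  have h1 : MulAction.IsMultiplyPretransitive A5 (Fin 5) 2 := by
    have h2 := alternatingGroup.isMultiplyPretransitive (Fin 5)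
    have h3 : Nat.card (Fin 5) - 2 = 3 := by simp
    rw [h3] at h2
    exact MulAction.isMultiplyPretransitive_of_le (n := 3) (by norm_num) (by simp)
  rw [MulAction.is_two_pretransitive_iff] at h1
  obtain ⟨g, hg1, hg2⟩ := h1 h h'
  exact ⟨g, hg1, hg2⟩

/-- sum-zero vectors are combinations of the `vec i 0 r` -/
lemma mem_of_vec (A : AddSubgroup (Fin 5 → R)) (hA : ∀ i r, vec i 0 r ∈ A) (w : Fin 5 → R)
    (hw : ∑ i, w i = 0) : w ∈ A := by
  have h1 : w = ∑ i, vec i 0 (w i) := by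
    funext k
    rw [Finset.sum_apply]
    simp only [vec_apply, Finset.sum_sub_distrib]
    simp [hw]
  rw [h1]
  exact A.sum_mem (fun i _ => hA i _)

lemma mem_of_vec2 (A : AddSubgroup (Bool → Fin 5 → R))
    (hA : ∀ c i r, i ≠ 0 → (Pi.single c (vec i 0 r) : Bool → Fin 5 → R) ∈ A)
    (t : Bool → Fin 5 → R) (ht : ∀ c, ∑ i, t c i = 0) : t ∈ A := by
  have h0 : ∀ c i r, (Pi.single c (vec i 0 r) : Bool → Fin 5 → R) ∈ A := by
    intro c i r
    by_cases hi : i = 0
    · subst hi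
      have : (vec 0 0 r : Fin 5 → R) = 0 := by simp [vec]
      rw [this, Pi.single_zero]; exact A.zero_mem
    · exact hA c i r hi
  have h1 : ∀ c, (Pi.single c (t c) : Bool → Fin 5 → R) ∈ A := by
    intro c
    have h2 := mem_of_vec (A.comap (AddMonoidHom.single (fun _ : Bool => Fin 5 → R) c))
      (fun i r => h0 c i r) (t c) (ht c)
    exact h2
  have h2 : t = ∑ c, Pi.single c (t c) := (Finset.univ_sum_single t).symm
  rw [h2]
  exact A.sum_mem (fun c _ => h1 c)

namespace E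

lemma conj_inj (g : A5) (t : Bool → Fin 5 → R) (h : ∀ c, ∑ i, t c i = 0) :
    inj g * tl t h * (inj g)⁻¹ = tl (fun c => ac1 g (t c)) (fun c => by rw [sum_ac1, h]) := by
  refine ext' (fun c i => ?_) (by simp)
  simp [ac1_apply]

lemma conj_gen (u : E R) (t : Bool → Fin 5 → R) (h : ∀ c, ∑ i, t c i = 0) :
    u * tl t h * u⁻¹ = tl (fun c => ac1 u.g (t c)) (fun c => by rw [sum_ac1, h]) := by
  refine ext' (fun c i => ?_) (by simp)
  simp [ac1_apply]

lemma TS_ac {H : Subgroup (E R)} (hH : H.Normal) {t : Bool → Fin 5 → R} (ht : t ∈ TS H)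
    (g : A5) : (fun c => ac1 g (t c)) ∈ TS H := by
  obtain ⟨h, h'⟩ := ht
  have := hH.conj_mem _ h' (inj g)
  rw [conj_inj] at this
  exact ⟨_, this⟩

/-- a subgroup `H` such that `u t u⁻¹ t⁻¹ ∈ H` for all translations `t` and some `u` over each
element of `A₅` contains all translations -/
lemma all_tl {H : Subgroup (E R)} (hH : ∀ (g : A5) (t : Bool → Fin 5 → R)
    (_ : ∀ c, ∑ i, t c i = 0), (fun c => ac1 g (t c) - t c) ∈ TS H) :
    ∀ (t : Bool → Fin 5 → R) (_ : ∀ c, ∑ i, t c i = 0), t ∈ TS H := by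
  intro t ht
  apply mem_of_vec2 _ _ t ht
  intro c k r hk
  obtain ⟨j, m, hji, hjk, hmi, hmk, hjm⟩ := other 0 k
  have h1 := hH (cyc 0 k m hk.symm hmk.symm) (Pi.single c (vec 0 j r)) (by
    intro c'
    by_cases h : c' = c
    · subst h; simp [sum_vec]
    · simp [Pi.single_eq_of_ne h])
  have h2 : (fun c' => ac1 (cyc 0 k m hk.symm hmk.symm)
      ((Pi.single c (vec 0 j r) : Bool → Fin 5 → R) c') -
      (Pi.single c (vec 0 j r) : Bool → Fin 5 → R) c') =
      (Pi.single c (vec k 0 r) : Bool → Fin 5 → R) := by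
    funext c'
    by_cases h : c' = c
    · subst h
      rw [Pi.single_eq_same, Pi.single_eq_same, ac1_vec, cyc_i hk.symm hmk.symm hmi.symm,
        cyc_o hk.symm hmk.symm hji hjk hjm]
      simp [vec]
    · rw [Pi.single_eq_of_ne h, Pi.single_eq_of_ne h]
      funext i
      simp [ac1_apply]
  rw [h2] at h1
  exact h1

theorem perfect : ⁅(⊤ : Subgroup (E R)), (⊤ : Subgroup (E R))⁆ = ⊤ := by
  set C : Subgroup (E R) := ⁅(⊤ : Subgroup (E R)), (⊤ : Subgroup (E R))⁆ with hC
  have h1 : ∀ g : A5, inj g ∈ C := by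
    intro g
    have h2 : _root_.commutator A5 = ⊤ := commutator_alternatingGroup_eq_top (by simp)
    have h3 : Subgroup.map inj (_root_.commutator A5) ≤ C := by
      rw [_root_.commutator_def, Subgroup.map_commutator]
      exact Subgroup.commutator_mono le_top le_top
    rw [h2] at h3
    exact h3 ⟨g, trivial, rfl⟩
  have h2 := all_tl (H := C) (by
    intro g t h
    refine ⟨fun c => by
      have := sum_ac1 g (t c)
      simp only [Pi.sub_apply, Finset.sum_sub_distrib, this, h, sub_zero], ?_⟩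
    have h3 : ⁅inj g, tl t h⁆ ∈ C := Subgroup.commutator_mem_commutator trivial trivial
    rw [commutatorElement_def, conj_inj] at h3
    convert h3 using 1
    refine ext' (fun c i => ?_) (by simp)
    simp [sub_eq_add_neg])
  rw [eq_top_iff]
  intro u _
  rw [eq_tl_mul_inj u]
  exact C.mul_mem (TS_tl (h2 _ u.h) _) (h1 _)

/-- the reduction map -/
def red (q : ℕ) : E ℤ →* E (ZMod q) where
  toFun u := ⟨fun c i => (u.t c i : ZMod q), u.g, fun c => by
    have := u.h c
    rw [← Int.cast_sum, this, Int.cast_zero]⟩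
  map_one' := ext' (fun c i => by simp) rfl
  map_mul' u v := ext' (fun c i => by simp) rfl

lemma red_surjective (q : ℕ) : Function.Surjective (red q) := by
  intro u
  have hs := ZMod.intCast_surjective (n := q)
  obtain ⟨l, hl⟩ := hs.hasRightInverse
  have hl' : ∀ z, ((l z : ℤ) : ZMod q) = z := hl
  refine ⟨⟨fun c => Fin.cons (- ∑ i : Fin 4, l (u.t c i.succ)) (fun i => l (u.t c i.succ)), u.g,
    ?_⟩, ?_⟩
  · intro c
    rw [Fin.sum_univ_succ]
    simp
  · refine ext' (fun c i => ?_) rfl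
    change (((Fin.cons (- ∑ i : Fin 4, l (u.t c i.succ)) (fun i => l (u.t c i.succ)) :
      Fin 5 → ℤ) i : ℤ) : ZMod q) = u.t c i
    refine Fin.cases ?_ (fun i => ?_) i
    · rw [Fin.cons_zero]
      push_cast
      simp only [hl']
      have := u.h c
      rw [Fin.sum_univ_succ] at this
      rw [eq_comm]
      exact eq_neg_of_add_eq_zero_left this
    · rw [Fin.cons_succ, hl']

instance fg : Group.FG (E ℤ) := by
  classical
  refine Group.fg_iff.mpr ⟨Set.range (inj : A5 →* E ℤ) ∪ Set.range (fun p : Bool × Fin 5 =>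
    tl (Pi.single p.1 (vec p.2 0 (1 : ℤ))) (by
      intro c'
      by_cases h : c' = p.1
      · rw [h]; simp [sum_vec]
      · simp [Pi.single_eq_of_ne h])), ?_, ?_⟩
  · set H := Subgroup.closure (Set.range (inj : A5 →* E ℤ) ∪ Set.range (fun p : Bool × Fin 5 =>
      tl (Pi.single p.1 (vec p.2 0 (1 : ℤ))) (by
      intro c'
      by_cases h : c' = p.1
      · rw [h]; simp [sum_vec]
      · simp [Pi.single_eq_of_ne h]))) with hH
    have h1 : ∀ c i, (Pi.single c (vec i 0 (1 : ℤ)) : Bool → Fin 5 → ℤ) ∈ TS H := by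
      intro c i
      exact ⟨_, Subgroup.subset_closure (Set.mem_union_right _ ⟨(c, i), rfl⟩)⟩
    have h2 : ∀ t : Bool → Fin 5 → ℤ, (∀ c, ∑ i, t c i = 0) → t ∈ TS H := by
      intro t ht
      apply mem_of_vec2 _ _ t ht
      intro c i r _
      have h3 : (Pi.single c (vec i 0 r) : Bool → Fin 5 → ℤ) =
          r • (Pi.single c (vec i 0 (1 : ℤ)) : Bool → Fin 5 → ℤ) := by
        rw [← Pi.single_smul]
        congr 1
        funext k
        simp [vec_apply, mul_sub]
      rw [h3]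
      exact (TS H).zsmul_mem (h1 c i) r
    rw [eq_top_iff]
    intro u _
    rw [eq_tl_mul_inj u]
    exact H.mul_mem (TS_tl (h2 _ u.h) _)
      (Subgroup.subset_closure (Set.mem_union_left _ ⟨_, rfl⟩))
  · exact (Set.finite_range _).union (Set.finite_range _)

end E

end Pool.Agent.W5h84.Seg
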