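import Pool.Agent.W5h84.Seg.Real

/-!
# The automorphism of the tower of permutation groups
-/

set_option linter.unusedSectionVars false

namespace Pool.Agent.W5h84.Seg

open Rig Rig.Wr

variable {Ω : ℕ → Type} {G : ℕ → Type} [∀ n, Group (G n)] [∀ n, MulAction (G n) (Ω n)]
  {a b : ∀ n, Ω n} {D : Type} [Group D] (π : ∀ n, D →* G n) (hab : ∀ n, a n ≠ b n)
  (θ : ∀ n, MulAut (G n)) (σ : ∀ n, Equiv.Perm (Ω n)) (τD : MulAut D)
  (hσ : ∀ n (g : G n) i, σ n (g • i) = θ n g • σ n i)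
  (hπτ : ∀ n d, π n (τD d) = θ n (π n d))
  (hσa : ∀ n, σ n (a n) = a n) (hσb : ∀ n, σ n (b n) = b n)

/-- the coordinatewise permutation -/
def rho : Equiv.Perm (∀ k, Ω k) := Equiv.piCongrRight σ

lemma rho_apply (x : ∀ k, Ω k) (k : ℕ) : rho σ x k = σ k (x k) := rfl

lemma rho_update (x : ∀ k, Ω k) (n : ℕ) (c : Ω n) :
    rho σ (Function.update x n c) = Function.update (rho σ x) n (σ n c) := by
  funext k
  by_cases h : k = n
  · subst h; simp [rho_apply]
  · simp [rho_apply, Function.update_of_ne h]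

include hσ in
lemma rho_rt (n : ℕ) (g : G n) : rho σ * rt n g * (rho σ)⁻¹ = rt n (θ n g) := by
  rw [mul_inv_eq_iff_eq_mul]
  ext1 x
  change rho σ (rt n g x) = rt n (θ n g) (rho σ x)
  rw [rt_apply, rt_apply, rho_update, hσ, rho_apply]

include hσa hσb in
lemma spine_rho (n m : ℕ) (x : ∀ k, Ω k) : Spine a b n m (rho σ x) ↔ Spine a b n m x := by
  unfold Spine
  refine and_congr Iff.rfl (and_congr ?_ ?_)
  · constructor
    · intro h k hk hkm
      have := h k hk hkm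
      rw [rho_apply, ← hσa k] at this
      exact (σ k).injective (this.trans (by rw [hσa]))
    · intro h k hk hkm
      rw [rho_apply, h k hk hkm, hσa]
  · constructor
    · intro h
      rw [rho_apply] at h
      exact (σ m).injective (h.trans (hσb m).symm)
    · intro h
      rw [rho_apply, h, hσb]

include hσ hπτ hσa hσb in
lemma rho_dd (n : ℕ) (d : D) :
    rho σ * dd π hab n d * (rho σ)⁻¹ = dd π hab n (τD d) := by
  rw [mul_inv_eq_iff_eq_mul]
  ext1 x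
  change rho σ (dd π hab n d x) = dd π hab n (τD d) (rho σ x)
  by_cases h : ∃ m, Spine a b n m x
  · obtain ⟨m, hm⟩ := h
    rw [dd_spine π hab d hm, dd_spine π hab (τD d) ((spine_rho σ hσa hσb n m x).mpr hm), hπτ]
    have := congrArg (fun p : Equiv.Perm (∀ k, Ω k) => p (rho σ x))
      (rho_rt θ σ hσ (m + 1) (π (m + 1) d))
    simpa using this
  · have h2 : ¬ ∃ m, Spine a b n m (rho σ x) := by
      rintro ⟨m, hm⟩
      exact h ⟨m, (spine_rho σ hσa hσb n m x).mp hm⟩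
    rw [dd_none π hab d h, dd_none π hab _ h2]

include hσ hπτ hσa hσb in
lemma Gm_map (n : ℕ) : (Gm π hab n).map (MulAut.conj (rho σ)).toMonoidHom = Gm π hab n := by
  apply le_antisymm
  · rw [Gm, Subgroup.map_sup]
    refine sup_le ?_ ?_
    · rintro _ ⟨_, ⟨d, rfl⟩, rfl⟩
      change rho σ * rt n (π n d) * (rho σ)⁻¹ ∈ _
      rw [rho_rt θ σ hσ, ← hπτ]
      exact rt_mem π hab n _
    · rintro _ ⟨_, ⟨d, rfl⟩, rfl⟩
      change rho σ * dd π hab n d * (rho σ)⁻¹ ∈ _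
      rw [rho_dd π hab θ σ τD hσ hπτ hσa hσb]
      exact dd_mem π hab n _
  · refine sup_le ?_ ?_
    · rintro _ ⟨d, rfl⟩
      refine ⟨rt n (π n (τD.symm d)), rt_mem π hab n _, ?_⟩
      change rho σ * rt n (π n (τD.symm d)) * (rho σ)⁻¹ = _
      rw [rho_rt θ σ hσ, ← hπτ, MulEquiv.apply_symm_apply]
      rfl
    · rintro _ ⟨d, rfl⟩
      refine ⟨dd π hab n (τD.symm d), dd_mem π hab n _, ?_⟩
      change rho σ * dd π hab n (τD.symm d) * (rho σ)⁻¹ = _
      rw [rho_dd π hab θ σ τD hσ hπτ hσa hσb, MulEquiv.apply_symm_apply]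

/-- the automorphism at level `n` -/
noncomputable def tt (n : ℕ) : MulAut (Gm π hab n) :=
  ((MulAut.conj (rho σ)).subgroupMap (Gm π hab n)).trans
    (MulEquiv.subgroupCongr (Gm_map π hab θ σ τD hσ hπτ hσa hσb n))

lemma tt_val (n : ℕ) (x : Gm π hab n) :
    (tt π hab θ σ τD hσ hπτ hσa hσb n x).1 = rho σ * x.1 * (rho σ)⁻¹ := rfl

lemma tt_apply (n : ℕ) (x : Gm π hab n) (y : ∀ k, Ω k) :
    (tt π hab θ σ τD hσ hπτ hσa hσb n x).1 (rho σ y) = rho σ (x.1 y) := by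
  rw [tt_val]
  simp

variable (hD : ⁅(⊤ : Subgroup D), (⊤ : Subgroup D)⁆ = ⊤) (hπ : ∀ n, Function.Surjective (π n))
  (hmv : ∀ n, ∃ g : G n, g • a n = a n ∧ g • b n ≠ b n)
  [∀ n, MulAction.IsPretransitive (G n) (Ω n)] [∀ n, Finite (Ω n)]
  (hf : ∀ n, Faithful' (G n) (Ω n))

/-- the twisted element of the wreath product -/
noncomputable def tw (n : ℕ) (w : Wr (Gm π hab (n + 1)) (G n) (Ω n)) :
    Wr (Gm π hab (n + 1)) (G n) (Ω n) :=
  ⟨fun j => tt π hab θ σ τD hσ hπτ hσa hσb (n + 1) (w.b ((σ n).symm j)), θ n w.g,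
    Set.toFinite _⟩

lemma F_tw (n : ℕ) (w : Wr (Gm π hab (n + 1)) (G n) (Ω n)) :
    F π hab n (tw π hab θ σ τD hσ hπτ hσa hσb n w) = rho σ * F π hab n w * (rho σ)⁻¹ := by
  rw [eq_mul_inv_iff_mul_eq]
  ext1 x
  change F π hab n (tw π hab θ σ τD hσ hπτ hσa hσb n w) (rho σ x) = rho σ (F π hab n w x)
  rw [F_apply, F_apply]
  change (tt π hab θ σ τD hσ hπτ hσa hσb (n + 1)
    (w.b ((σ n).symm (θ n w.g • rho σ x n)))).1 (Function.update (rho σ x) n
      (θ n w.g • rho σ x n)) = _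
  rw [rho_apply, ← hσ, Equiv.symm_apply_apply, ← rho_update, tt_apply]

lemma ee_tt (n : ℕ) (x : Gm π hab n) :
    ee π hab hD hπ hmv hf n (tt π hab θ σ τD hσ hπτ hσa hσb n x) =
      tw π hab θ σ τD hσ hπτ hσa hσb n (ee π hab hD hπ hmv hf n x) := by
  apply F_injective π hab hf n
  rw [F_ee, F_tw, F_ee]
  rfl

end Pool.Agent.W5h84.Seg
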