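import Pool.Agent.W5h84.Seg.Irr
import Pool.Agent.W5h84.Seg.RealTau

/-!
# The concrete tower, and the group with finite outer automorphism group
-/

set_option linter.unusedSectionVars false

namespace Pool.Agent.W5h84.Seg

open Rig Rig.Wr
open scoped commutatorElement

/-- the primes -/
noncomputable def qq (n : ℕ) : ℕ := (Nat.exists_infinite_primes (2 ^ n + 7)).choose

lemma le_qq (n : ℕ) : 2 ^ n + 7 ≤ qq n := (Nat.exists_infinite_primes (2 ^ n + 7)).choose_spec.1

instance (n : ℕ) : Fact (qq n).Prime :=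
  ⟨(Nat.exists_infinite_primes (2 ^ n + 7)).choose_spec.2⟩

/-- the points -/
abbrev Om' (n : ℕ) : Type := Y (ZMod (qq n))
/-- the finite groups -/
abbrev G' (n : ℕ) : Type := E (ZMod (qq n))

lemma seven_le (n : ℕ) : 7 ≤ qq n := le_trans (Nat.le_add_left 7 _) (le_qq n)

/-- the reductions -/
noncomputable def π' (n : ℕ) : E ℤ →* G' n := E.red (qq n)

lemma hab' (n : ℕ) : (pa : Om' n) ≠ pb := pa_ne_pb

lemma hπ' (n : ℕ) : Function.Surjective (π' n) := E.red_surjective _

/-- the groups of the tower -/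
noncomputable abbrev Gam' (n : ℕ) : Type := Gm π' hab' n

/-- the isomorphisms of the tower -/
noncomputable def e' (n : ℕ) : Gam' n ≃* Wr (Gam' (n + 1)) (G' n) (Om' n) :=
  ee π' hab' E.perfect hπ' (fun _ => moves) (fun _ => faithful) n

/-- the automorphisms of the tower -/
noncomputable def τ' (n : ℕ) : MulAut (Gam' n) :=
  tt π' hab' (fun _ => sw) (fun _ => swY) sw (fun _ _ _ => rfl) (fun _ _ => rfl)
    (fun _ => rfl) (fun _ => rfl) n

/-- the concrete tower -/
noncomputable def T' : Tower where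
  Γ := Gam'
  G := G'
  Ω := Om'
  gΓ := fun _ => inferInstance
  gG := fun _ => inferInstance
  aΩ := fun _ => inferInstance
  fG := fun _ => inferInstance
  fΩ := fun _ => inferInstance
  nG := fun _ => inferInstance
  neΩ := fun _ => inferInstance
  tΩ := fun _ => inferInstance
  faith := fun _ => faithful
  e := e'
  perf := fun n => Gm_perfect π' hab' E.perfect n
  sub := fun n K hK => sub_eq (seven_le n) K hK
  τ := τ'
  θ := fun _ => sw
  σ := fun _ => swY
  hg := fun n x => by
    have := ee_tt π' hab' (fun _ => sw) (fun _ => swY) sw (fun _ _ _ => rfl) (fun _ _ => rfl)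
      (fun _ => rfl) (fun _ => rfl) E.perfect hπ' (fun _ => moves) (fun _ => faithful) n x
    exact congrArg Wr.g this
  hb := fun n x i => by
    have := ee_tt π' hab' (fun _ => sw) (fun _ => swY) sw (fun _ _ _ => rfl) (fun _ _ => rfl)
      (fun _ => rfl) (fun _ => rfl) E.perfect hπ' (fun _ => moves) (fun _ => faithful) n x
    have h2 := congrArg (fun w => Wr.b w (swY i)) this
    refine h2.trans ?_
    change τ' (n + 1) ((e' n x).b (swY.symm (swY i))) = τ' (n + 1) ((e' n x).b i)
    rw [Equiv.symm_apply_apply]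
  p := qq
  hp := fun n => le_trans (Nat.le_add_right _ 7) (le_qq n)
  Kt := fun _ => KtG
  Kt_inj := fun _ => KtG_injective
  Kt_normal := fun _ t => KtG_normal t
  code := fun _ => codeG
  code_inj := fun n K K' hK hK' hs hs' h =>
    codeG_inj (seven_le n) K K' hK hK' hs hs' h

/-- the group `A` -/
noncomputable abbrev A' : Type := Gam' 0

instance : Group.FG A' := Gm_fg π' hab' 0

lemma tau_tau (n : ℕ) (x : Gam' n) : τ' n (τ' n x) = x := by
  have hr : rho (Ω := Om') (fun _ => swY) * rho (Ω := Om') (fun _ => swY) = 1 := by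
    ext1 y
    funext k
    change swY (swY (y k)) = y k
    refine Y.ext (funext fun c => ?_)
    change (y k).y (!!c) = (y k).y c
    simp
  apply Subtype.ext
  change rho (Ω := Om') (fun _ => swY) * (rho (Ω := Om') (fun _ => swY) * x.1 *
    (rho (Ω := Om') (fun _ => swY))⁻¹) * (rho (Ω := Om') (fun _ => swY))⁻¹ = x.1
  have h2 : (rho (Ω := Om') (fun _ => swY))⁻¹ = rho (Ω := Om') (fun _ => swY) :=
    inv_eq_of_mul_eq_one_left hr
  rw [h2, mul_assoc, mul_assoc, mul_assoc, hr, mul_one, ← mul_assoc, hr, one_mul]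

instance : Infinite A' := by
  by_contra h
  rw [not_infinite_iff_finite] at h
  have h1 : StrictMono T'.s := Tower.s_strictMono
  have h2 : ∀ j, T'.s j ≤ Nat.card A' := by
    intro j
    exact Nat.le_of_dvd Nat.card_pos (Subgroup.index_dvd_card _)
  have h3 := h1.le_apply (x := Nat.card A' + 1)
  have h4 := h2 (Nat.card A' + 1)
  omega

section prod

variable {A : Type} [Group A]

lemma prod_decomp (hA : ∀ P : Subgroup A, P.Normal → P.index ≠ 0 → ⁅P, (⊤ : Subgroup A)⁆ = P)
    (N : Subgroup (A × A)) (hN : N.Normal) (hN0 : N.index ≠ 0) :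
    N = (N.map (MonoidHom.fst A A)).prod (N.map (MonoidHom.snd A A)) := by
  have hfs : Function.Surjective (MonoidHom.fst A A) := fun a => ⟨(a, 1), rfl⟩
  have hss : Function.Surjective (MonoidHom.snd A A) := fun a => ⟨(1, a), rfl⟩
  apply le_antisymm
  · intro x hx
    exact ⟨⟨x, hx, rfl⟩, ⟨x, hx, rfl⟩⟩
  · have h1 : (N.map (MonoidHom.fst A A)).index ≠ 0 := by
      intro h
      have h2 : (N.map (MonoidHom.fst A A)).index ∣ N.index := by
        rw [← Subgroup.index_comap_of_surjective (N.map (MonoidHom.fst A A)) hfs]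
        exact Subgroup.index_dvd_of_le (Subgroup.le_comap_map _ _)
      rw [h] at h2
      exact hN0 (Nat.eq_zero_of_zero_dvd h2)
    have h2 : (N.map (MonoidHom.snd A A)).index ≠ 0 := by
      intro h
      have h2 : (N.map (MonoidHom.snd A A)).index ∣ N.index := by
        rw [← Subgroup.index_comap_of_surjective (N.map (MonoidHom.snd A A)) hss]
        exact Subgroup.index_dvd_of_le (Subgroup.le_comap_map _ _)
      rw [h] at h2
      exact hN0 (Nat.eq_zero_of_zero_dvd h2)
    have h3 : N.map (MonoidHom.fst A A) ≤ N.comap (MonoidHom.inl A A) := by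
      conv_lhs => rw [← hA _ (hN.map _ hfs) h1]
      rw [Subgroup.commutator_le]
      rintro _ ⟨⟨a, b⟩, hab, rfl⟩ x _
      have h4 : (x, (1 : A)) * (a, b)⁻¹ * (x, (1 : A))⁻¹ ∈ N :=
        hN.conj_mem _ (N.inv_mem hab) _
      have h5 := N.mul_mem hab h4
      rw [Subgroup.mem_comap]
      simpa [commutatorElement_def, mul_assoc] using h5
    have h4 : N.map (MonoidHom.snd A A) ≤ N.comap (MonoidHom.inr A A) := by
      conv_lhs => rw [← hA _ (hN.map _ hss) h2]
      rw [Subgroup.commutator_le]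
      rintro _ ⟨⟨a, b⟩, hab, rfl⟩ x _
      have h4 : ((1 : A), x) * (a, b)⁻¹ * ((1 : A), x)⁻¹ ∈ N :=
        hN.conj_mem _ (N.inv_mem hab) _
      have h5 := N.mul_mem hab h4
      rw [Subgroup.mem_comap]
      simpa [commutatorElement_def, mul_assoc] using h5
    rintro ⟨a, b⟩ ⟨ha, hb⟩
    have := N.mul_mem (h3 ha) (h4 hb)
    simpa using this

lemma NCount_prod [Group.FG A] (x : ℕ) : NCount A x ≤ NCount (A × A) x := by
  have hfs : Function.Surjective (MonoidHom.fst A A) := fun a => ⟨(a, 1), rfl⟩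
  have := finite_normal (A × A) x
  refine Nat.card_le_card_of_injective (fun P : {N : Subgroup A // N.Normal ∧ N.index ≠ 0 ∧
    N.index ≤ x} => (⟨P.1.comap (MonoidHom.fst A A), P.2.1.comap _, ?_, ?_⟩ :
      {N : Subgroup (A × A) // N.Normal ∧ N.index ≠ 0 ∧ N.index ≤ x})) ?_
  · rw [Subgroup.index_comap_of_surjective _ hfs]; exact P.2.2.1
  · rw [Subgroup.index_comap_of_surjective _ hfs]; exact P.2.2.2
  · intro P P' h
    simp only [Subtype.mk.injEq] at h
    apply Subtype.ext
    exact Subgroup.comap_injective hfs h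

lemma TCount_prod [Group.FG A] (τ : MulAut A)
    (hA : ∀ P : Subgroup A, P.Normal → P.index ≠ 0 → ⁅P, (⊤ : Subgroup A)⁆ = P) (x : ℕ) :
    TCount (A × A) (MulEquiv.prodCongr τ τ) x ≤ TCount A τ x * TCount A τ x := by
  have hfs : Function.Surjective (MonoidHom.fst A A) := fun a => ⟨(a, 1), rfl⟩
  have hss : Function.Surjective (MonoidHom.snd A A) := fun a => ⟨(1, a), rfl⟩
  have hfin : Finite {N : Subgroup A // N.Normal ∧ N.map τ.toMonoidHom = N ∧
      N.index ≠ 0 ∧ N.index ≤ x} := by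
    have := finite_normal A x
    refine Finite.of_injective (fun N : {N : Subgroup A // N.Normal ∧
      N.map τ.toMonoidHom = N ∧ N.index ≠ 0 ∧ N.index ≤ x} =>
      (⟨N.1, N.2.1, N.2.2.2.1, N.2.2.2.2⟩ :
        {N : Subgroup A // N.Normal ∧ N.index ≠ 0 ∧ N.index ≤ x})) ?_
    intro N M h
    simp only [Subtype.mk.injEq] at h
    exact Subtype.ext h
  unfold TCount
  rw [← Nat.card_prod]
  have key1 : ∀ N : Subgroup (A × A), N.index ≠ 0 → N.index ≤ x →
      (N.map (MonoidHom.fst A A)).index ≠ 0 ∧ (N.map (MonoidHom.fst A A)).index ≤ x := by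
    intro N hN0 hNx
    have h2 : (N.map (MonoidHom.fst A A)).index ∣ N.index := by
      rw [← Subgroup.index_comap_of_surjective (N.map (MonoidHom.fst A A)) hfs]
      exact Subgroup.index_dvd_of_le (Subgroup.le_comap_map _ _)
    refine ⟨fun h => ?_, (Nat.le_of_dvd (Nat.pos_of_ne_zero hN0) h2).trans hNx⟩
    rw [h] at h2
    exact hN0 (Nat.eq_zero_of_zero_dvd h2)
  have key2 : ∀ N : Subgroup (A × A), N.index ≠ 0 → N.index ≤ x →
      (N.map (MonoidHom.snd A A)).index ≠ 0 ∧ (N.map (MonoidHom.snd A A)).index ≤ x := by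
    intro N hN0 hNx
    have h2 : (N.map (MonoidHom.snd A A)).index ∣ N.index := by
      rw [← Subgroup.index_comap_of_surjective (N.map (MonoidHom.snd A A)) hss]
      exact Subgroup.index_dvd_of_le (Subgroup.le_comap_map _ _)
    refine ⟨fun h => ?_, (Nat.le_of_dvd (Nat.pos_of_ne_zero hN0) h2).trans hNx⟩
    rw [h] at h2
    exact hN0 (Nat.eq_zero_of_zero_dvd h2)
  have key3 : ∀ N : Subgroup (A × A), N.map (MulEquiv.prodCongr τ τ).toMonoidHom = N →
      (N.map (MonoidHom.fst A A)).map τ.toMonoidHom = N.map (MonoidHom.fst A A) := by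
    intro N hN
    conv_rhs => rw [← hN]
    rw [Subgroup.map_map, Subgroup.map_map]
    rfl
  have key4 : ∀ N : Subgroup (A × A), N.map (MulEquiv.prodCongr τ τ).toMonoidHom = N →
      (N.map (MonoidHom.snd A A)).map τ.toMonoidHom = N.map (MonoidHom.snd A A) := by
    intro N hN
    conv_rhs => rw [← hN]
    rw [Subgroup.map_map, Subgroup.map_map]
    rfl
  refine Nat.card_le_card_of_injective (fun N : {N : Subgroup (A × A) // N.Normal ∧
    N.map (MulEquiv.prodCongr τ τ).toMonoidHom = N ∧ N.index ≠ 0 ∧ N.index ≤ x} =>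
    ((⟨N.1.map (MonoidHom.fst A A), N.2.1.map _ hfs, key3 _ N.2.2.1,
      key1 _ N.2.2.2.1 N.2.2.2.2⟩ : {N : Subgroup A // N.Normal ∧ N.map τ.toMonoidHom = N ∧
      N.index ≠ 0 ∧ N.index ≤ x}),
    (⟨N.1.map (MonoidHom.snd A A), N.2.1.map _ hss, key4 _ N.2.2.1,
      key2 _ N.2.2.2.1 N.2.2.2.2⟩ : {N : Subgroup A // N.Normal ∧ N.map τ.toMonoidHom = N ∧
      N.index ≠ 0 ∧ N.index ≤ x}))) ?_
  intro N M h
  simp only [Prod.mk.injEq, Subtype.mk.injEq] at h
  apply Subtype.ext
  rw [prod_decomp hA N.1 N.2.1 N.2.2.2.1, prod_decomp hA M.1 M.2.1 M.2.2.2.1, h.1, h.2]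

end prod

/-- the group -/
theorem main : ∃ (Γ : Type) (_ : Group Γ), Group.FG Γ ∧
    Finite (MulAut Γ ⧸ (MulAut.conj (G := Γ)).range) ∧
    ∀ C : ℕ, ∃ x0 : ℕ, ∀ x ≥ x0, (CCount Γ x) ^ C < NCount Γ x := by
  have hs : IsSimpleGroup A5 := alternatingGroup.isSimpleGroup (by simp)
  have hcl : CL A5 := by
    refine ⟨fun s hs' => ?_⟩
    have hc : Subgroup.center A5 = ⊥ := by
      rcases IsSimpleGroup.eq_bot_or_eq_top_of_normal (Subgroup.center A5) inferInstance with h | h
      · exact h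
      · exfalso
        have h2 : _root_.commutator A5 = ⊤ := commutator_alternatingGroup_eq_top (by simp)
        have h3 : _root_.commutator A5 ≤ ⊥ := by
          rw [_root_.commutator_def, Subgroup.commutator_le]
          intro g _ k _
          rw [Subgroup.mem_bot, commutatorElement_eq_one_iff_mul_comm]
          have : k ∈ Subgroup.center A5 := by rw [h]; trivial
          exact (Subgroup.mem_center_iff.mp this g)
        rw [h2] at h3
        exact bot_ne_top (le_antisymm bot_le h3)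
    have : s ∈ Subgroup.center A5 := by
      rw [Subgroup.mem_center_iff]
      intro t
      exact (hs' t).symm
    rw [hc] at this
    exact this
  obtain ⟨Γ, hΓ, hfg, hout, hN, hC⟩ := rigidify A5 (A' × A') (oneEnded_prod A' A')
    (MulEquiv.prodCongr (τ' 0) (τ' 0)) (by
      rintro ⟨a, b⟩
      change (τ' 0 (τ' 0 a), τ' 0 (τ' 0 b)) = (a, b)
      rw [tau_tau, tau_tau])
  refine ⟨Γ, hΓ, hfg, hout, fun C => ?_⟩
  have hFG : Group.FG (T'.Γ 0) := (inferInstance : Group.FG A')
  obtain ⟨x0, hx0⟩ := T'.count (2 * C)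
  refine ⟨x0, fun x hx => ?_⟩
  have h1 := hx0 x hx
  have hA : ∀ P : Subgroup A', P.Normal → P.index ≠ 0 → ⁅P, (⊤ : Subgroup A')⁆ = P :=
    fun P hP hP0 => (Tower.classify (T := T') P.index 0 P hP rfl hP0).1
  calc (CCount Γ x) ^ C ≤ (TCount (A' × A') (MulEquiv.prodCongr (τ' 0) (τ' 0)) x) ^ C :=
        Nat.pow_le_pow_left (hC x) C
    _ ≤ (TCount A' (τ' 0) x * TCount A' (τ' 0) x) ^ C :=
        Nat.pow_le_pow_left (TCount_prod (τ' 0) hA x) C
    _ = (TCount A' (τ' 0) x) ^ (2 * C) := by rw [← pow_two, ← pow_mul]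
    _ < NCount A' x := h1
    _ ≤ NCount (A' × A') x := NCount_prod x
    _ = NCount Γ x := (hN x).symm

end Pool.Agent.W5h84.Seg
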