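import Pool.Agent.W5h84.Seg.Aff

/-!
# Normal subgroups of `(V ⊕ V) : A₅` over `ZMod q`
-/

set_option linter.unusedSectionVars false

namespace Pool.Agent.W5h84.Seg

open Rig Rig.Wr
open scoped commutatorElement

section general

variable {R : Type} [CommRing R]

instance : Nonempty (Y R) := ⟨⟨fun _ _ => 0, by simp⟩⟩

instance [Finite R] : Finite (Y R) :=
  Finite.of_injective (fun y : Y R => y.y) (fun _ _ h => Y.ext h)

instance [Finite R] : Finite (E R) :=
  Finite.of_injective (fun u : E R => (u.t, u.g)) (fun _ _ h => by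
    simp only [Prod.mk.injEq] at h
    exact E.ext h.1 h.2)

instance : Nontrivial (E R) := by
  obtain ⟨g, hg⟩ := exists_ne (1 : A5)
  exact ⟨⟨E.inj g, 1, fun h => hg (congrArg E.g h)⟩⟩

instance : MulAction.IsPretransitive (E R) (Y R) := by
  refine ⟨fun x y => ⟨E.tl (fun c => y.y c - x.y c) (fun c => ?_), ?_⟩⟩
  · simp only [Pi.sub_apply, Finset.sum_sub_distrib, x.h, y.h, sub_zero]
  · refine Y.ext (funext fun c => funext fun i => ?_)
    rw [E.smul_y]
    simp

lemma faithful [Nontrivial R] : Faithful' (E R) (Y R) := by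
  intro u hu
  have h1 : ∀ c i, u.t c i = 0 := by
    intro c i
    have := congrArg (fun y => Y.y y c i) (hu ⟨fun _ _ => 0, by simp⟩)
    simpa [E.smul_y] using this
  have h2 : u.g = 1 := by
    by_contra hne
    have : ∃ i, u.g.1 i ≠ i := by
      by_contra h
      push Not at h
      exact hne (Subtype.ext (Equiv.ext h))
    obtain ⟨i, hi⟩ := this
    obtain ⟨j, _, hji, hjg, _⟩ := other i (u.g.1 i)
    have h3 := congrArg (fun y => Y.y y true (u.g.1 i)) (hu ⟨fun _ => vec i j 1, fun _ => sum_vec _ _ _⟩)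
    simp only [E.smul_y, h1, zero_add] at h3
    rw [vec_apply, vec_apply] at h3
    simp [hi, hjg.symm] at h3
    by_cases h4 : i = j
    · exact hji h4.symm
    · simp [h4] at h3
  exact E.ext' h1 h2

/-- the points of the spine -/
def pa : Y R := ⟨fun _ _ => 0, by simp⟩
/-- the points next to the spine -/
def pb : Y R := ⟨fun _ => vec 0 1 1, fun _ => sum_vec _ _ _⟩

lemma pa_ne_pb [Nontrivial R] : (pa : Y R) ≠ pb := by
  intro h
  have := congrArg (fun y => Y.y y true 0) h
  simp [pa, pb, vec_apply] at this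

lemma moves [Nontrivial R] : ∃ g : E R, g • (pa : Y R) = pa ∧ g • (pb : Y R) ≠ pb := by
  refine ⟨E.inj (cyc 0 1 2 (by decide) (by decide)), ?_, ?_⟩
  · refine Y.ext (funext fun c => funext fun i => ?_)
    rw [E.smul_y]
    simp [pa]
  · intro h
    have h1 := congrArg (fun y => Y.y y true 0) h
    have h2 := congrFun (ac1_vec (cyc 0 1 2 (by decide) (by decide)) 0 1 (1 : R)) 0
    rw [ac1_apply, cyc_i (by decide) (by decide) (by decide),
      cyc_j (by decide) (by decide) (by decide)] at h2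
    simp only [E.smul_y, pb, E.inj_t, E.inj_g, zero_add] at h1
    rw [h2] at h1
    simp [vec_apply] at h1

/-- the swap -/
def sw : MulAut (E R) where
  toFun u := ⟨fun c => u.t (!c), u.g, fun c => u.h _⟩
  invFun u := ⟨fun c => u.t (!c), u.g, fun c => u.h _⟩
  left_inv u := by
    refine E.ext' (fun c i => ?_) rfl
    simp
  right_inv u := by
    refine E.ext' (fun c i => ?_) rfl
    simp
  map_mul' u v := by
    refine E.ext' (fun c i => ?_) rfl
    simp

/-- the swap on points -/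
def swY : Equiv.Perm (Y R) where
  toFun y := ⟨fun c => y.y (!c), fun c => y.h _⟩
  invFun y := ⟨fun c => y.y (!c), fun c => y.h _⟩
  left_inv y := by
    refine Y.ext (funext fun c => ?_)
    simp
  right_inv y := by
    refine Y.ext (funext fun c => ?_)
    simp

lemma sw_smul (u : E R) (y : Y R) : swY (u • y) = sw u • swY y := rfl
lemma swY_pa : swY (pa : Y R) = pa := rfl
lemma swY_pb : swY (pb : Y R) = pb := rfl
lemma sw_sw (u : E R) : sw (sw u) = u := by
  refine E.ext' (fun c i => ?_) rfl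
  change u.t (!!c) i = u.t c i
  simp
lemma red_sw (q : ℕ) (u : E ℤ) : E.red q (sw u) = sw (E.red q u) := rfl

/-- normal subgroups not inside the translations are everything -/
lemma eq_top_of_moves (K : Subgroup (E R)) (hK : K.Normal) (hm : ∃ u ∈ K, u.g ≠ 1) :
    K = ⊤ := by
  let pr : E R →* A5 := { toFun := E.g, map_one' := rfl, map_mul' := fun _ _ => rfl }
  have hpr : Function.Surjective pr := fun g => ⟨E.inj g, rfl⟩
  have hs : IsSimpleGroup A5 := alternatingGroup.isSimpleGroup (by simp)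
  have htop : K.map pr = ⊤ := by
    rcases IsSimpleGroup.eq_bot_or_eq_top_of_normal (K.map pr) (hK.map _ hpr) with h | h
    · exfalso
      obtain ⟨u, hu, hug⟩ := hm
      have : pr u ∈ K.map pr := ⟨u, hu, rfl⟩
      rw [h, Subgroup.mem_bot] at this
      exact hug this
    · exact h
  have hall : ∀ g : A5, ∃ u ∈ K, u.g = g := by
    intro g
    have : g ∈ K.map pr := by rw [htop]; trivial
    obtain ⟨u, hu, hug⟩ := this
    exact ⟨u, hu, hug⟩
  have htl := E.all_tl (H := K) (by
    intro g t h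
    obtain ⟨u, hu, rfl⟩ := hall g
    refine ⟨fun c => by
      have := sum_ac1 u.g (t c)
      simp only [Pi.sub_apply, Finset.sum_sub_distrib, this, h, sub_zero], ?_⟩
    have h3 : E.tl t h * u⁻¹ * (E.tl t h)⁻¹ ∈ K := hK.conj_mem _ (K.inv_mem hu) _
    have h4 := K.mul_mem hu h3
    rw [← mul_assoc, ← mul_assoc, E.conj_gen] at h4
    convert h4 using 1
    refine E.ext' (fun c i => ?_) (by simp)
    simp [sub_eq_add_neg])
  rw [eq_top_iff]
  intro v _
  obtain ⟨u, hu, hug⟩ := hall v.g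
  have h5 : v * u⁻¹ = E.tl (v * u⁻¹).t (v * u⁻¹).h := E.ext' (fun _ _ => rfl) (by simp [hug])
  have h6 : v * u⁻¹ ∈ K := by
    rw [h5]
    exact E.TS_tl (htl _ (v * u⁻¹).h) _
  have := K.mul_mem h6 hu
  simpa using this

end general

/-- a rotation -/
def rot (k : Fin 5) : A5 := ⟨Equiv.addRight k, by
  rw [Equiv.Perm.mem_alternatingGroup]
  revert k; decide⟩

lemma rot_sum {R : Type} [CommRing R] (w : Fin 5 → R) (hw : ∑ i, w i = 0) :
    ∑ k, ac1 (rot k) w = 0 := by
  funext i
  rw [Finset.sum_apply]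
  have h1 : ∀ k, ac1 (rot k) w i = w (i - k) := by
    intro k
    rw [ac1_apply]
    congr 1
    rw [Equiv.Perm.inv_eq_iff_eq]
    change i = i - k + k
    simp
  simp only [h1]
  exact (Equiv.sum_comp (Equiv.subLeft i) w).trans hw

lemma five (i j : Fin 5) (h : i ≠ j) : ∃ k l m : Fin 5, k ≠ i ∧ k ≠ j ∧ l ≠ i ∧ l ≠ j ∧ l ≠ k ∧
    m ≠ i ∧ m ≠ j ∧ m ≠ k ∧ m ≠ l ∧ ∀ x, x = i ∨ x = j ∨ x = k ∨ x = l ∨ x = m := by
  revert i j; decide

section prime

variable {q : ℕ} [hq : Fact q.Prime] (hq7 : 7 ≤ q)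

include hq7 in
lemma natCast_ne_zero {n : ℕ} (h1 : 0 < n) (h2 : n < 7) : (n : ZMod q) ≠ 0 := by
  intro h
  rw [ZMod.natCast_eq_zero_iff] at h
  have := Nat.le_of_dvd h1 h
  omega

/-- additive subgroups are closed under division by invertible integers -/
lemma div_mem {M : Type} [AddCommGroup M] [Module (ZMod q) M] (A : AddSubgroup M) (c : ZMod q)
    (hc : c ≠ 0) (x : M) (h : c • x ∈ A) : x ∈ A := by
  have h1 : x = (c⁻¹).val • (c • x) := by
    have h2 : (c⁻¹).val • (c • x) = ((c⁻¹).val : ZMod q) • (c • x) := (Nat.cast_smul_eq_nsmul _ _ _).symm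
    rw [h2, ZMod.natCast_val, ZMod.cast_id', id, smul_smul, inv_mul_cancel₀ hc, one_smul]
  rw [h1]
  exact A.nsmul_mem h _

lemma smul_mem' {M : Type} [AddCommGroup M] [Module (ZMod q) M] (A : AddSubgroup M) (c : ZMod q)
    (x : M) (h : x ∈ A) : c • x ∈ A := by
  have h1 : c • x = c.val • x := by
    have h2 : c.val • x = (c.val : ZMod q) • x := (Nat.cast_smul_eq_nsmul _ _ _).symm
    rw [h2, ZMod.natCast_val, ZMod.cast_id', id]
  rw [h1]
  exact A.nsmul_mem h _

include hq7 in
lemma irr (A : AddSubgroup (Fin 5 → ZMod q)) (hA : ∀ g w, w ∈ A → ac1 g w ∈ A)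
    (hs : ∀ w ∈ A, ∑ i, w i = 0) (w : Fin 5 → ZMod q) (hw : w ∈ A) (hw0 : w ≠ 0) :
    ∀ v : Fin 5 → ZMod q, ∑ i, v i = 0 → v ∈ A := by
  have hne : ∃ i j, w i ≠ w j := by
    by_contra h
    push Not at h
    apply hw0
    have h1 := hs w hw
    have h2 : ∀ i, w i = w 0 := fun i => h i 0
    simp only [h2] at h1
    rw [Finset.sum_const, Finset.card_univ, Fintype.card_fin, nsmul_eq_mul] at h1
    rcases mul_eq_zero.mp h1 with h3 | h3
    · exact absurd h3 (natCast_ne_zero hq7 (by norm_num) (by norm_num))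
    · funext i; rw [h2, h3]; rfl
  obtain ⟨i, j, hij'⟩ := hne
  have hij : i ≠ j := by rintro rfl; exact hij' rfl
  obtain ⟨k, l, m, hki, hkj, hli, hlj, hlk, hmi, hmj, hmk, hml, hall⟩ := five i j hij
  set r := w i - w j with hr
  have hr0 : r ≠ 0 := sub_ne_zero.mpr hij'
  set g := cyc i j k hij hkj.symm with hg
  set z := ac1 g w - w with hz
  have hzA : z ∈ A := A.sub_mem (hA g w hw) hw
  have inv1 : ∀ {g : A5} {x y : Fin 5}, g.1 x = y → g.1⁻¹ y = x := by
    intro g x y h
    rw [Equiv.Perm.inv_eq_iff_eq, h]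
  have zj : z j = r := by
    rw [hz, Pi.sub_apply, ac1_apply, inv1 (cyc_i hij hkj.symm hki.symm), hr]
  have zl : z l = 0 := by
    rw [hz, Pi.sub_apply, ac1_apply, inv1 (cyc_o hij hkj.symm hli hlj hlk), sub_self]
  have zm : z m = 0 := by
    rw [hz, Pi.sub_apply, ac1_apply, inv1 (cyc_o hij hkj.symm hmi hmj hmk), sub_self]
  set c := cyc j l m hlj.symm hml.symm with hc
  have hyA : ac1 c z - z ∈ A := A.sub_mem (hA c z hzA) hzA
  have hy : ac1 c z - z = vec l j r := by
    funext x
    rw [Pi.sub_apply, ac1_apply, vec_apply]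
    rcases hall x with rfl | rfl | rfl | rfl | rfl
    · rw [inv1 (cyc_o hlj.symm hml.symm hij hli.symm hmi.symm)]
      simp [hli.symm, hij]
    · rw [inv1 (cyc_k hlj.symm hml.symm), zm, zj]
      simp [hlj.symm]
    · rw [inv1 (cyc_o hlj.symm hml.symm hkj hlk.symm hmk.symm)]
      simp [hlk.symm, hkj]
    · rw [inv1 (cyc_i hlj.symm hml.symm hmj.symm), zj, zl]
      simp [hlj]
    · rw [inv1 (cyc_j hlj.symm hml.symm hmj.symm), zl, zm]
      simp [hml, hmj]
  rw [hy] at hyA
  have h1 : ∀ s, vec l j s ∈ A := by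
    intro s
    have : (vec l j s : Fin 5 → ZMod q) = (s * r⁻¹) • vec l j r := by
      funext x
      rw [Pi.smul_apply, vec_apply, vec_apply, smul_eq_mul, mul_sub]
      have : s * r⁻¹ * r = s := by rw [mul_assoc, inv_mul_cancel₀ hr0, mul_one]
      split_ifs <;> simp [this]
    rw [this]
    exact smul_mem' A _ _ hyA
  intro v hv
  apply mem_of_vec A _ v hv
  intro x s
  by_cases hx : x = 0
  · subst hx
    have : (vec 0 0 s : Fin 5 → ZMod q) = 0 := by simp [vec]
    rw [this]; exact A.zero_mem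
  · obtain ⟨g, hg1, hg2⟩ := two_trans hlj hx
    have := hA g _ (h1 s)
    rw [ac1_vec, hg1, hg2] at this
    exact this

include hq7 in
/-- `[K, G] = K` for all normal subgroups `K` -/
theorem sub_eq (K : Subgroup (E (ZMod q))) (hK : K.Normal) :
    ⁅K, (⊤ : Subgroup (E (ZMod q)))⁆ = K := by
  by_cases hm : ∃ u ∈ K, u.g ≠ 1
  · rw [eq_top_of_moves K hK hm]
    exact E.perfect
  · push Not at hm
    apply le_antisymm (Subgroup.commutator_le_left _ _)
    intro u hu
    have hu2 : u = E.tl u.t u.h := E.ext' (fun _ _ => rfl) (hm u hu)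
    set C : Subgroup (E (ZMod q)) := ⁅K, (⊤ : Subgroup (E (ZMod q)))⁆ with hC
    have h1 : ∀ g : A5, (fun c => u.t c - ac1 g (u.t c)) ∈ E.TS C := by
      intro g
      refine ⟨fun c => by
        have := sum_ac1 g (u.t c)
        simp only [Pi.sub_apply, Finset.sum_sub_distrib, this, u.h, sub_zero], ?_⟩
      have h3 : ⁅E.tl u.t u.h, E.inj g⁆ ∈ C :=
        Subgroup.commutator_mem_commutator (by rw [← hu2]; exact hu) trivial
      have h4 : ⁅E.tl u.t u.h, E.inj g⁆ = E.tl u.t u.h *
          (E.inj g * (E.tl u.t u.h) * (E.inj g)⁻¹)⁻¹ := by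
        rw [commutatorElement_def]; group
      rw [h4, E.conj_inj] at h3
      convert h3 using 1
      refine E.ext' (fun c i => ?_) (by simp)
      simp [sub_eq_add_neg]
    have h2 : (∑ k : Fin 5, (fun c => u.t c - ac1 (rot k) (u.t c))) ∈ E.TS C :=
      (E.TS C).sum_mem (fun k _ => h1 (rot k))
    have h3 : (∑ k : Fin 5, (fun c => u.t c - ac1 (rot k) (u.t c))) =
        ((5 : ℕ) : ZMod q) • u.t := by
      funext c
      rw [Finset.sum_apply, Finset.sum_sub_distrib, rot_sum _ (u.h c), sub_zero,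
        Finset.sum_const, Finset.card_univ, Fintype.card_fin, Pi.smul_apply,
        Nat.cast_smul_eq_nsmul]
    rw [h3] at h2
    have h4 := div_mem (E.TS C) _ (natCast_ne_zero hq7 (by norm_num) (by norm_num)) _ h2
    rw [hu2]
    exact E.TS_tl h4 _

/-- the diagonal normal subgroups -/
def KtG (s : Fin q) : Subgroup (E (ZMod q)) where
  carrier := {u | u.g = 1 ∧ ∀ i, u.t true i = (s.1 : ZMod q) * u.t false i}
  mul_mem' := by
    rintro u v ⟨hu, hu'⟩ ⟨hv, hv'⟩
    refine ⟨by simp [hu, hv], fun i => ?_⟩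
    rw [E.mul_t, E.mul_t, hu', hv', mul_add]
  one_mem' := ⟨rfl, fun i => by simp⟩
  inv_mem' := by
    rintro u ⟨hu, hu'⟩
    refine ⟨by simp [hu], fun i => ?_⟩
    rw [E.inv_t, E.inv_t, hu', mul_neg]

lemma KtG_normal (s : Fin q) : (KtG s).Normal := by
  refine ⟨fun u hu v => ?_⟩
  have hu2 : u = E.tl u.t u.h := E.ext' (fun _ _ => rfl) hu.1
  rw [hu2, E.conj_gen]
  refine ⟨rfl, fun i => ?_⟩
  rw [E.tl_t, E.tl_t, ac1_apply, ac1_apply]
  exact hu.2 _

lemma KtG_injective : Function.Injective (KtG (q := q)) := by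
  intro s s' h
  have h1 : (⟨fun c => if c then vec 0 1 ((s.1 : ZMod q)) else vec 0 1 1, 1, fun c => by
      cases c <;> simp [sum_vec]⟩ : E (ZMod q)) ∈ KtG s := by
    refine ⟨rfl, fun i => ?_⟩
    simp [vec_apply, mul_sub]
  rw [h] at h1
  have h2 := h1.2 0
  simp [vec_apply] at h2
  apply Fin.ext
  have h3 := congrArg ZMod.val h2
  rwa [ZMod.val_natCast_of_lt s.2, ZMod.val_natCast_of_lt s'.2] at h3

/-- `A₊` -/
def Ap (K : Subgroup (E (ZMod q))) : AddSubgroup (Fin 5 → ZMod q) :=
  (E.TS K).comap ({ toFun := fun w _ => w, map_zero' := rfl, map_add' := fun _ _ => rfl } :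
    (Fin 5 → ZMod q) →+ (Bool → Fin 5 → ZMod q))

/-- `A₋` -/
def Am (K : Subgroup (E (ZMod q))) : AddSubgroup (Fin 5 → ZMod q) :=
  (E.TS K).comap ({ toFun := fun w c => if c then -w else w
                    map_zero' := by funext c; simp
                    map_add' := fun v w => by
                      funext c
                      cases c <;> simp [add_comm] } :
    (Fin 5 → ZMod q) →+ (Bool → Fin 5 → ZMod q))

lemma mem_Ap {K : Subgroup (E (ZMod q))} {w : Fin 5 → ZMod q} :
    w ∈ Ap K ↔ (fun _ => w) ∈ E.TS K := Iff.rfl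

lemma mem_Am {K : Subgroup (E (ZMod q))} {w : Fin 5 → ZMod q} :
    w ∈ Am K ↔ (fun c => if c then -w else w) ∈ E.TS K := Iff.rfl

include hq7 in
lemma Ap_all {K : Subgroup (E (ZMod q))} (hK : K.Normal) {w : Fin 5 → ZMod q} (hw : w ∈ Ap K)
    (hw0 : w ≠ 0) : ∀ v : Fin 5 → ZMod q, ∑ i, v i = 0 → v ∈ Ap K := by
  refine irr hq7 (Ap K) ?_ ?_ w hw hw0
  · intro g w hw
    rw [mem_Ap] at hw ⊢
    exact E.TS_ac hK hw g
  · intro w hw
    exact E.TS_sum (mem_Ap.mp hw) true

include hq7 in
lemma Am_all {K : Subgroup (E (ZMod q))} (hK : K.Normal) {w : Fin 5 → ZMod q} (hw : w ∈ Am K)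
    (hw0 : w ≠ 0) : ∀ v : Fin 5 → ZMod q, ∑ i, v i = 0 → v ∈ Am K := by
  refine irr hq7 (Am K) ?_ ?_ w hw hw0
  · intro g w hw
    rw [mem_Am] at hw ⊢
    have := E.TS_ac hK hw g
    convert this using 1
    funext c
    cases c
    · simp
    · funext i; simp [ac1_apply]
  · intro w hw
    have := E.TS_sum (mem_Am.mp hw) false
    simpa using this

open Classical in
/-- the code of a normal subgroup -/
noncomputable def codeG (K : Subgroup (E (ZMod q))) : Fin 5 :=
  if ∃ u ∈ K, u.g ≠ 1 then 4 else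
    if vec 0 1 1 ∈ Ap K then (if vec 0 1 1 ∈ Am K then 3 else 2)
      else (if vec 0 1 1 ∈ Am K then 1 else 0)

lemma vec_ne_zero : (vec 0 1 1 : Fin 5 → ZMod q) ≠ 0 := by
  intro h
  have := congrFun h 0
  simp [vec_apply] at this

include hq7 in
lemma le_of_code {K K' : Subgroup (E (ZMod q))} (hK : K.Normal) (hK' : K'.Normal)
    (hs : K.map (sw (R := ZMod q)).toMonoidHom = K) (hm : ∀ u ∈ K, u.g = 1)
    (hp : vec 0 1 1 ∈ Ap K → vec 0 1 1 ∈ Ap K') (hmn : vec 0 1 1 ∈ Am K → vec 0 1 1 ∈ Am K') :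
    K ≤ K' := by
  intro u hu
  have hu2 : u = E.tl u.t u.h := E.ext' (fun _ _ => rfl) (hm u hu)
  have h1 : u.t ∈ E.TS K := ⟨u.h, by rw [← hu2]; exact hu⟩
  have h2 : (fun c => u.t (!c)) ∈ E.TS K := by
    have h3 : sw u ∈ K := by
      rw [← hs]; exact ⟨u, hu, rfl⟩
    refine ⟨fun c => u.h _, ?_⟩
    have h4 : sw u = E.tl (fun c => u.t (!c)) (fun c => u.h _) :=
      E.ext' (fun _ _ => rfl) (hm u hu)
    rw [← h4]; exact h3
  have hplus : u.t false + u.t true ∈ Ap K := by
    rw [mem_Ap]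
    have := (E.TS K).add_mem h1 h2
    convert this using 1
    funext c
    cases c
    · rfl
    · change _ = u.t true + u.t false
      rw [add_comm]
  have hminus : u.t false - u.t true ∈ Am K := by
    rw [mem_Am]
    have := (E.TS K).sub_mem h1 h2
    convert this using 1
    funext c
    cases c
    · rfl
    · change -(u.t false - u.t true) = u.t true - u.t false
      rw [neg_sub]
  have hsum1 : ∑ i, (u.t false + u.t true) i = 0 := by
    simp only [Pi.add_apply, Finset.sum_add_distrib, u.h, add_zero]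
  have hsum2 : ∑ i, (u.t false - u.t true) i = 0 := by
    simp only [Pi.sub_apply, Finset.sum_sub_distrib, u.h, sub_zero]
  have hplus' : u.t false + u.t true ∈ Ap K' := by
    by_cases h0 : u.t false + u.t true = 0
    · rw [h0]; exact (Ap K').zero_mem
    · have h3 := Ap_all hq7 hK hplus h0 (vec 0 1 1) (sum_vec _ _ _)
      exact Ap_all hq7 hK' (hp h3) vec_ne_zero _ hsum1
  have hminus' : u.t false - u.t true ∈ Am K' := by
    by_cases h0 : u.t false - u.t true = 0
    · rw [h0]; exact (Am K').zero_mem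
    · have h3 := Am_all hq7 hK hminus h0 (vec 0 1 1) (sum_vec _ _ _)
      exact Am_all hq7 hK' (hmn h3) vec_ne_zero _ hsum2
  have h5 : ((2 : ℕ) : ZMod q) • u.t ∈ E.TS K' := by
    have := (E.TS K').add_mem (mem_Ap.mp hplus') (mem_Am.mp hminus')
    convert this using 1
    funext c
    rw [Pi.smul_apply, Nat.cast_smul_eq_nsmul, two_nsmul]
    cases c
    · change u.t false + u.t false = u.t false + u.t true + (u.t false - u.t true)
      abel
    · change u.t true + u.t true = u.t false + u.t true + -(u.t false - u.t true)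
      abel
  have h6 := div_mem (E.TS K') _ (natCast_ne_zero hq7 (by norm_num) (by norm_num)) _ h5
  rw [hu2]
  exact E.TS_tl h6 _

include hq7 in
theorem codeG_inj (K K' : Subgroup (E (ZMod q))) (hK : K.Normal) (hK' : K'.Normal)
    (hs : K.map (sw (R := ZMod q)).toMonoidHom = K)
    (hs' : K'.map (sw (R := ZMod q)).toMonoidHom = K') (h : codeG K = codeG K') : K = K' := by
  unfold codeG at h
  by_cases hm : ∃ u ∈ K, u.g ≠ 1
  · by_cases hm' : ∃ u ∈ K', u.g ≠ 1
    · rw [eq_top_of_moves K hK hm, eq_top_of_moves K' hK' hm']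
    · rw [if_pos hm, if_neg hm'] at h
      exfalso
      revert h
      split_ifs <;> decide
  · by_cases hm' : ∃ u ∈ K', u.g ≠ 1
    · rw [if_neg hm, if_pos hm'] at h
      exfalso
      revert h
      split_ifs <;> decide
    · rw [if_neg hm, if_neg hm'] at h
      push Not at hm hm'
      have hp : vec 0 1 1 ∈ Ap K ↔ vec 0 1 1 ∈ Ap K' := by
        revert h
        split_ifs with h1 h2 h3 h4 h5 h6 h7 <;> simp_all
      have hmn : vec 0 1 1 ∈ Am K ↔ vec 0 1 1 ∈ Am K' := by
        revert h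
        split_ifs with h1 h2 h3 h4 h5 h6 h7 <;> simp_all
      exact le_antisymm (le_of_code hq7 hK hK' hs hm hp.mp hmn.mp)
        (le_of_code hq7 hK' hK hs' hm' hp.mpr hmn.mpr)

end prime

end Pool.Agent.W5h84.Seg
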