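import Pool.Agent.W5h84.Seg.Tower

/-!
# Realisation of towers by permutations of infinite sequences
-/

set_option linter.unusedSectionVars false

namespace Pool.Agent.W5h84.Seg

open Rig Rig.Wr
open scoped commutatorElement

section

variable {Ω : ℕ → Type} {G : ℕ → Type} [∀ n, Group (G n)] [∀ n, MulAction (G n) (Ω n)]

/-- the rooted permutation at level `n` -/
def rt (n : ℕ) : G n →* Equiv.Perm (∀ k, Ω k) :=
  MonoidHom.toHomPerm
    { toFun := fun g x => Function.update x n (g • x n)
      map_one' := by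
        funext x
        change Function.update x n ((1 : G n) • x n) = x
        simp
      map_mul' := fun g h => by
        funext x
        change Function.update x n ((g * h) • x n) =
          Function.update (Function.update x n (h • x n)) n
            (g • (Function.update x n (h • x n)) n)
        simp [mul_smul] }

lemma rt_apply (n : ℕ) (g : G n) (x : ∀ k, Ω k) : rt n g x = Function.update x n (g • x n) := rfl

/-- permutations commuting with all changes of the coordinates `≤ n` -/
def Z (Ω : ℕ → Type) (n : ℕ) : Subgroup (Equiv.Perm (∀ k, Ω k)) where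
  carrier := {h | ∀ k ≤ n, ∀ (x : ∀ k, Ω k) (c : Ω k),
    h (Function.update x k c) = Function.update (h x) k c}
  mul_mem' := by
    intro g h hg hh k hk x c
    rw [Equiv.Perm.mul_apply, Equiv.Perm.mul_apply, hh k hk, hg k hk]
  one_mem' := by intro k _ x c; rfl
  inv_mem' := by
    intro h hh k hk x c
    rw [Equiv.Perm.inv_eq_iff_eq, hh k hk]
    simp

lemma Z_apply {n : ℕ} {h : Equiv.Perm (∀ k, Ω k)} (hh : h ∈ Z Ω n) {k : ℕ} (hk : k ≤ n)
    (x : ∀ k, Ω k) : h x k = x k := by
  have := hh k hk x (x k)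
  rw [Function.update_eq_self] at this
  rw [this]; simp

variable (a b : ∀ n, Ω n)

/-- `x` follows the spine `a` from level `n` up to level `m`, where it meets `b` -/
def Spine (n m : ℕ) (x : ∀ k, Ω k) : Prop :=
  n ≤ m ∧ (∀ k, n ≤ k → k < m → x k = a k) ∧ x m = b m

variable {a b}

lemma Spine.unique (hab : ∀ n, a n ≠ b n) {n m m' : ℕ} {x : ∀ k, Ω k} (h : Spine a b n m x)
    (h' : Spine a b n m' x) : m = m' := by
  rcases lt_trichotomy m m' with hlt | heq | hlt
  · exact absurd ((h'.2.1 m h.1 hlt).symm.trans h.2.2) (hab m)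
  · exact heq
  · exact absurd ((h.2.1 m' h'.1 hlt).symm.trans h'.2.2) (hab m')

lemma Spine.update {n m j : ℕ} {x : ∀ k, Ω k} (c : Ω j) (hj : m < j ∨ j < n) :
    Spine a b n m (Function.update x j c) ↔ Spine a b n m x := by
  unfold Spine
  constructor
  · rintro ⟨h1, h2, h3⟩
    refine ⟨h1, fun k hk hkm => ?_, ?_⟩
    · have := h2 k hk hkm
      rwa [Function.update_of_ne (by omega)] at this
    · rwa [Function.update_of_ne (by omega)] at h3
  · rintro ⟨h1, h2, h3⟩
    refine ⟨h1, fun k hk hkm => ?_, ?_⟩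
    · rw [Function.update_of_ne (by omega)]; exact h2 k hk hkm
    · rw [Function.update_of_ne (by omega)]; exact h3

variable {D : Type} [Group D] (π : ∀ n, D →* G n) (a b)

open Classical in
/-- the directed map -/
noncomputable def dfun (n : ℕ) (d : D) (x : ∀ k, Ω k) : ∀ k, Ω k :=
  if h : ∃ m, Spine a b n m x then rt (h.choose + 1) (π (h.choose + 1) d) x else x

variable {a b} in
lemma dfun_spine (hab : ∀ n, a n ≠ b n) {n m : ℕ} (d : D) {x : ∀ k, Ω k}
    (h : Spine a b n m x) : dfun a b π n d x = rt (m + 1) (π (m + 1) d) x := by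
  have h1 : ∃ m, Spine a b n m x := ⟨m, h⟩
  have h2 : h1.choose = m := h1.choose_spec.unique hab h
  unfold dfun
  rw [dif_pos h1, h2]

lemma dfun_none {n : ℕ} (d : D) {x : ∀ k, Ω k} (h : ¬ ∃ m, Spine a b n m x) :
    dfun a b π n d x = x := by
  unfold dfun
  rw [dif_neg h]

variable {a b} in
/-- the directed elements -/
noncomputable def dd (hab : ∀ n, a n ≠ b n) (n : ℕ) : D →* Equiv.Perm (∀ k, Ω k) :=
  MonoidHom.toHomPerm
    { toFun := fun d x => dfun a b π n d x
      map_one' := by
        funext x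
        change dfun a b π n 1 x = x
        by_cases h : ∃ m, Spine a b n m x
        · obtain ⟨m, hm⟩ := h
          rw [dfun_spine π hab _ hm]; simp
        · exact dfun_none a b π _ h
      map_mul' := fun d d' => by
        funext x
        change dfun a b π n (d * d') x = dfun a b π n d (dfun a b π n d' x)
        by_cases h : ∃ m, Spine a b n m x
        · obtain ⟨m, hm⟩ := h
          have h2 : Spine a b n m (rt (m + 1) (π (m + 1) d') x) := by
            rw [rt_apply, Spine.update _ (Or.inl (Nat.lt_succ_self m))]; exact hm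
          rw [dfun_spine π hab _ hm, dfun_spine π hab _ hm, dfun_spine π hab _ h2, map_mul,
            map_mul]
          rfl
        · rw [dfun_none a b π _ h, dfun_none a b π _ h, dfun_none a b π _ h] }

variable {a b}
variable (hab : ∀ n, a n ≠ b n)

lemma dd_spine {n m : ℕ} (d : D) {x : ∀ k, Ω k} (h : Spine a b n m x) :
    dd π hab n d x = rt (m + 1) (π (m + 1) d) x := dfun_spine π hab d h

lemma dd_none {n : ℕ} (d : D) {x : ∀ k, Ω k} (h : ¬ ∃ m, Spine a b n m x) :
    dd π hab n d x = x := dfun_none a b π d h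

/-- the group of level `n` -/
noncomputable def Gm (n : ℕ) : Subgroup (Equiv.Perm (∀ k, Ω k)) :=
  ((rt n).comp (π n)).range ⊔ (dd π hab n).range

lemma rt_mem (n : ℕ) (d : D) : rt n (π n d) ∈ Gm π hab n :=
  (le_sup_left : ((rt n).comp (π n)).range ≤ Gm π hab n) ⟨d, rfl⟩

lemma dd_mem (n : ℕ) (d : D) : dd π hab n d ∈ Gm π hab n :=
  (le_sup_right : (dd π hab n).range ≤ Gm π hab n) ⟨d, rfl⟩

lemma Gm_le_Z (n : ℕ) : Gm π hab (n + 1) ≤ Z Ω n := by
  refine sup_le ?_ ?_
  · rintro _ ⟨d, rfl⟩ k hk x c
    change rt (n + 1) (π (n + 1) d) (Function.update x k c) =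
      Function.update (rt (n + 1) (π (n + 1) d) x) k c
    rw [rt_apply, rt_apply, Function.update_of_ne (by omega), Function.update_comm (by omega)]
  · rintro _ ⟨d, rfl⟩ k hk x c
    by_cases h : ∃ m, Spine a b (n + 1) m x
    · obtain ⟨m, hm⟩ := h
      have h2 : Spine a b (n + 1) m (Function.update x k c) := by
        rw [Spine.update _ (Or.inr (by omega))]; exact hm
      rw [dd_spine π hab d hm, dd_spine π hab d h2, rt_apply, rt_apply,
        Function.update_of_ne (by have := hm.1; omega),
        Function.update_comm (by have := hm.1; omega)]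
    · have h2 : ¬ ∃ m, Spine a b (n + 1) m (Function.update x k c) := by
        rintro ⟨m, hm⟩
        rw [Spine.update _ (Or.inr (by omega))] at hm
        exact h ⟨m, hm⟩
      rw [dd_none π hab d h, dd_none π hab d h2]

/-- the action of the wreath product on sequences -/
noncomputable def F (n : ℕ) : Wr (Gm π hab (n + 1)) (G n) (Ω n) →* Equiv.Perm (∀ k, Ω k) :=
  MonoidHom.toHomPerm
    { toFun := fun w x => (w.b (w.g • x n)).1 (Function.update x n (w.g • x n))
      map_one' := by
        funext x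
        change ((1 : Gm π hab (n + 1)) : Equiv.Perm (∀ k, Ω k))
          (Function.update x n ((1 : G n) • x n)) = x
        simp
      map_mul' := fun u v => by
        funext x
        change ((u * v).b ((u * v).g • x n)).1 (Function.update x n ((u * v).g • x n)) =
          (u.b (u.g • ((v.b (v.g • x n)).1 (Function.update x n (v.g • x n))) n)).1
            (Function.update ((v.b (v.g • x n)).1 (Function.update x n (v.g • x n))) n
              (u.g • ((v.b (v.g • x n)).1 (Function.update x n (v.g • x n))) n))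
        have h1 : ((v.b (v.g • x n)).1 (Function.update x n (v.g • x n))) n = v.g • x n := by
          rw [Z_apply (Gm_le_Z π hab n (v.b (v.g • x n)).2) le_rfl]; simp
        rw [h1, ← Gm_le_Z π hab n (v.b (v.g • x n)).2 n le_rfl, Function.update_idem]
        simp [mul_smul] }

lemma F_apply (n : ℕ) (w : Wr (Gm π hab (n + 1)) (G n) (Ω n)) (x : ∀ k, Ω k) :
    F π hab n w x = (w.b (w.g • x n)).1 (Function.update x n (w.g • x n)) := rfl

lemma F_inr (n : ℕ) (g : G n) : F π hab n (inr g) = rt n g := by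
  ext1 x
  rw [F_apply, rt_apply]
  simp

/-- elements of the base act by their coordinates -/
lemma F_base (n : ℕ) (w : Wr (Gm π hab (n + 1)) (G n) (Ω n)) (hw : w.g = 1) (x : ∀ k, Ω k) :
    F π hab n w x = (w.b (x n)).1 x := by
  rw [F_apply, hw, one_smul, Function.update_eq_self]

lemma F_injective (hf : ∀ n, Faithful' (G n) (Ω n)) (n : ℕ) :
    Function.Injective (F π hab n) := by
  rw [injective_iff_map_eq_one]
  intro w hw
  have hw' : ∀ x, F π hab n w x = x := by intro x; rw [hw]; rfl
  have h1 : w.g = 1 := by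
    apply hf
    intro i
    have h2 := congrFun (hw' (Function.update a n i)) n
    rw [F_apply, Z_apply (Gm_le_Z π hab n (w.b _).2) le_rfl] at h2
    simpa using h2
  refine ext' (fun i => ?_) h1
  apply Subtype.ext
  ext1 y
  have h3 := hw' (Function.update y n i)
  rw [F_base π hab n w h1, Function.update_self,
    Gm_le_Z π hab n (w.b i).2 n le_rfl] at h3
  change (w.b i).1 y = y
  funext k
  by_cases hk : k = n
  · subst hk
    exact Z_apply (Gm_le_Z π hab k (w.b i).2) le_rfl y
  · have h4 := congrFun h3 k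
    rwa [Function.update_of_ne hk, Function.update_of_ne hk] at h4

/-- the directed element inside the wreath product -/
noncomputable def cc (n : ℕ) (d : D) : Wr (Gm π hab (n + 1)) (G n) (Ω n) :=
  dl (a n) ⟨dd π hab (n + 1) d, dd_mem π hab _ _⟩ *
    dl (b n) ⟨rt (n + 1) (π (n + 1) d), rt_mem π hab _ _⟩

lemma cc_g (n : ℕ) (d : D) : (cc π hab n d).g = 1 := by simp [cc]

lemma cc_b (n : ℕ) (d : D) (i : Ω n) : (cc π hab n d).b i =
    (dl (G := G n) (a n) (⟨dd π hab (n + 1) d, dd_mem π hab _ _⟩ : Gm π hab (n + 1))).b i *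
    (dl (G := G n) (b n) (⟨rt (n + 1) (π (n + 1) d), rt_mem π hab _ _⟩ : Gm π hab (n + 1))).b i := by
  simp [cc]

lemma F_cc (n : ℕ) (d : D) : F π hab n (cc π hab n d) = dd π hab n d := by
  ext1 x
  rw [F_base π hab n _ (cc_g π hab n d), cc_b]
  by_cases ha : x n = a n
  · rw [ha, dl_b_self, dl_b_ne (hab n), mul_one]
    change dd π hab (n + 1) d x = dd π hab n d x
    by_cases h : ∃ m, Spine a b (n + 1) m x
    · obtain ⟨m, hm⟩ := h
      have h2 : Spine a b n m x := by
        refine ⟨by have := hm.1; omega, fun k hk hkm => ?_, hm.2.2⟩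
        rcases Nat.eq_or_lt_of_le hk with h | h
        · subst h; exact ha
        · exact hm.2.1 k h hkm
      rw [dd_spine π hab d hm, dd_spine π hab d h2]
    · have h2 : ¬ ∃ m, Spine a b n m x := by
        rintro ⟨m, hm⟩
        apply h
        have hne : m ≠ n := by
          rintro rfl
          exact hab m (ha.symm.trans hm.2.2)
        exact ⟨m, by have := hm.1; omega, fun k hk hkm => hm.2.1 k (by omega) hkm, hm.2.2⟩
      rw [dd_none π hab d h, dd_none π hab d h2]
  · by_cases hb : x n = b n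
    · rw [hb, dl_b_self, dl_b_ne (hab n).symm, one_mul]
      change rt (n + 1) (π (n + 1) d) x = dd π hab n d x
      have h2 : Spine a b n n x := ⟨le_rfl, fun k hk hkn => by omega, hb⟩
      rw [dd_spine π hab d h2]
    · rw [dl_b_ne ha, dl_b_ne hb, mul_one]
      have h2 : ¬ ∃ m, Spine a b n m x := by
        rintro ⟨m, hm⟩
        rcases Nat.eq_or_lt_of_le hm.1 with h | h
        · subst h; exact hb hm.2.2
        · exact ha (hm.2.1 n le_rfl h)
      rw [dd_none π hab d h2]
      rfl

variable (hD : ⁅(⊤ : Subgroup D), (⊤ : Subgroup D)⁆ = ⊤) (hπ : ∀ n, Function.Surjective (π n))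
  (hmv : ∀ n, ∃ g : G n, g • a n = a n ∧ g • b n ≠ b n)
  [∀ n, MulAction.IsPretransitive (G n) (Ω n)]

include hD hπ hmv in
lemma dl_mem (n : ℕ) (i : Ω n) (h : Gm π hab (n + 1)) :
    F π hab n (dl i h) ∈ Gm π hab n := by
  have hinr : ∀ g : G n, F π hab n (inr g) ∈ Gm π hab n := by
    intro g
    obtain ⟨d, rfl⟩ := hπ n g
    rw [F_inr]
    exact rt_mem π hab n d
  have hcc : ∀ d, F π hab n (cc π hab n d) ∈ Gm π hab n := by
    intro d; rw [F_cc]; exact dd_mem π hab n d
  -- directed elements at the vertex `a`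
  have h1 : ∀ d : D, F π hab n (dl (a n) ⟨dd π hab (n + 1) d, dd_mem π hab _ _⟩) ∈
      Gm π hab n := by
    let φ : D →* Gm π hab (n + 1) :=
      (dd π hab (n + 1)).codRestrict _ (fun d => dd_mem π hab _ _)
    have hle : ⁅(⊤ : Subgroup D), (⊤ : Subgroup D)⁆ ≤
        (Gm π hab n).comap ((F π hab n).comp ((dl (a n)).comp φ)) := by
      rw [Subgroup.commutator_le]
      intro d _ d' _
      obtain ⟨g, hga, hgb⟩ := hmv n
      have key : (dl (a n) (φ d * φ d' * (φ d)⁻¹ * (φ d')⁻¹) :
          Wr (Gm π hab (n + 1)) (G n) (Ω n)) =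
          cc π hab n d * (inr g * cc π hab n d' * (inr g)⁻¹) * (cc π hab n d)⁻¹ *
            (inr g * cc π hab n d' * (inr g)⁻¹)⁻¹ := by
        have hconj : inr g * cc π hab n d' * (inr g)⁻¹ =
            (dl (a n) (φ d') * dl (g • b n) ⟨rt (n + 1) (π (n + 1) d'), rt_mem π hab _ _⟩ :
              Wr (Gm π hab (n + 1)) (G n) (Ω n)) := by
          have e1 : inr g * cc π hab n d' * (inr g)⁻¹ =
              (inr g * dl (a n) (φ d') * (inr g)⁻¹) *
              (inr g * dl (b n) ⟨rt (n + 1) (π (n + 1) d'), rt_mem π hab _ _⟩ *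
                (inr g)⁻¹ : Wr (Gm π hab (n + 1)) (G n) (Ω n)) := by
            change inr g * (dl (a n) (φ d') * dl (b n) _) * (inr g)⁻¹ = _
            group
          rw [e1, conj_dl, conj_dl]
          simp [hga]
        have hgab : g • b n ≠ a n := by
          intro h
          have h3 : g • b n = g • a n := by rw [h, hga]
          exact hab n (MulAction.injective g h3).symm
        rw [hconj]
        refine ext' (fun i => ?_) (by simp [cc_g])
        have hccd : (cc π hab n d) = (dl (a n) (φ d) *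
          dl (b n) ⟨rt (n + 1) (π (n + 1) d), rt_mem π hab _ _⟩ :
              Wr (Gm π hab (n + 1)) (G n) (Ω n)) := rfl
        rw [hccd]
        by_cases hia : i = a n
        · subst hia
          simp [dl_b_ne (hab n), dl_b_ne hgab.symm]
        · by_cases hib : i = b n
          · subst hib
            simp [dl_b_ne (hab n).symm, dl_b_ne hgb.symm]
          · by_cases hig : i = g • b n
            · subst hig
              simp [dl_b_ne hgb, dl_b_ne hgab]
            · simp [dl_b_ne hia, dl_b_ne hib, dl_b_ne hig]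
      rw [Subgroup.mem_comap, MonoidHom.comp_apply, MonoidHom.comp_apply, commutatorElement_def,
        map_mul φ, map_mul φ, map_mul φ, map_inv φ, map_inv φ, key]
      have m1 := hcc d
      have m2 := (Gm π hab n).mul_mem ((Gm π hab n).mul_mem (hinr g) (hcc d'))
        ((Gm π hab n).inv_mem (hinr g))
      have m3 := (Gm π hab n).mul_mem ((Gm π hab n).mul_mem ((Gm π hab n).mul_mem m1 m2)
        ((Gm π hab n).inv_mem m1)) ((Gm π hab n).inv_mem m2)
      simpa only [map_mul, map_inv] using m3
    rw [hD] at hle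
    intro d
    exact hle (Subgroup.mem_top d)
  -- rooted elements at the vertex `b`
  have h2 : ∀ d : D, F π hab n (dl (b n) ⟨rt (n + 1) (π (n + 1) d), rt_mem π hab _ _⟩) ∈
      Gm π hab n := by
    intro d
    have m := (Gm π hab n).mul_mem ((Gm π hab n).inv_mem (h1 d)) (hcc d)
    rw [← map_inv, ← map_mul] at m
    simpa [cc] using m
  -- all vertices
  have hmove : ∀ (j : Ω n) (h : Gm π hab (n + 1)), F π hab n (dl j h) ∈ Gm π hab n →
      F π hab n (dl i h) ∈ Gm π hab n := by
    intro j h hj
    obtain ⟨g, rfl⟩ := MulAction.exists_smul_eq (G n) j i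
    have m := (Gm π hab n).mul_mem ((Gm π hab n).mul_mem (hinr g) hj)
      ((Gm π hab n).inv_mem (hinr g))
    rw [← map_inv, ← map_mul, ← map_mul, conj_dl] at m
    simpa using m
  have hall : Gm π hab (n + 1) ≤
      ((Gm π hab n).comap ((F π hab n).comp (dl i))).map (Gm π hab (n + 1)).subtype := by
    refine sup_le ?_ ?_
    · rintro _ ⟨d, rfl⟩
      exact ⟨⟨rt (n + 1) (π (n + 1) d), rt_mem π hab _ _⟩, hmove _ _ (h2 d), rfl⟩
    · rintro _ ⟨d, rfl⟩
      exact ⟨⟨dd π hab (n + 1) d, dd_mem π hab _ _⟩, hmove _ _ (h1 d), rfl⟩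
  obtain ⟨h', hh', hh2⟩ := hall h.2
  have : h' = h := Subtype.ext hh2
  rw [← this]
  exact hh'

include hD hπ hmv in
lemma F_range (n : ℕ) : (F π hab n).range = Gm π hab n := by
  apply le_antisymm
  · rintro _ ⟨w, rfl⟩
    rw [eq_inl_mul_inr w, map_mul]
    refine (Gm π hab n).mul_mem ?_ ?_
    · have : inl w.b w.fin ∈ (Gm π hab n).comap (F π hab n) :=
        mem_of_dl _ rfl (fun x => dl_mem π hab hD hπ hmv n x _)
      exact this
    · obtain ⟨d, hd⟩ := hπ n w.g
      rw [F_inr, ← hd]
      exact rt_mem π hab n d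
  · refine sup_le ?_ ?_
    · rintro _ ⟨d, rfl⟩
      exact ⟨inr (π n d), F_inr π hab n _⟩
    · rintro _ ⟨d, rfl⟩
      exact ⟨cc π hab n d, F_cc π hab n d⟩

/-- the isomorphism with the wreath product -/
noncomputable def ee (hf : ∀ n, Faithful' (G n) (Ω n)) (n : ℕ) :
    Gm π hab n ≃* Wr (Gm π hab (n + 1)) (G n) (Ω n) :=
  ((MonoidHom.ofInjective (F_injective π hab hf n)).trans
    (MulEquiv.subgroupCongr (F_range π hab hD hπ hmv n))).symm

lemma F_ee (hf : ∀ n, Faithful' (G n) (Ω n)) (n : ℕ) (x : Gm π hab n) :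
    F π hab n (ee π hab hD hπ hmv hf n x) = x.1 := by
  have h1 : ((MonoidHom.ofInjective (F_injective π hab hf n)).trans
    (MulEquiv.subgroupCongr (F_range π hab hD hπ hmv n)))
      (ee π hab hD hπ hmv hf n x) = x := by
    unfold ee
    rw [MulEquiv.apply_symm_apply]
  exact congrArg Subtype.val h1

include hD in
lemma Gm_perfect (n : ℕ) : ⁅(⊤ : Subgroup (Gm π hab n)), (⊤ : Subgroup (Gm π hab n))⁆ = ⊤ := by
  have hhom : ∀ φ : D →* Gm π hab n, ∀ d, φ d ∈
      ⁅(⊤ : Subgroup (Gm π hab n)), (⊤ : Subgroup (Gm π hab n))⁆ := by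
    intro φ d
    have h1 : Subgroup.map φ ⁅(⊤ : Subgroup D), (⊤ : Subgroup D)⁆ ≤
        ⁅(⊤ : Subgroup (Gm π hab n)), (⊤ : Subgroup (Gm π hab n))⁆ := by
      rw [Subgroup.map_commutator]
      exact Subgroup.commutator_mono le_top le_top
    rw [hD] at h1
    exact h1 ⟨d, trivial, rfl⟩
  have hall : Gm π hab n ≤ Subgroup.map (Gm π hab n).subtype
      ⁅(⊤ : Subgroup (Gm π hab n)), (⊤ : Subgroup (Gm π hab n))⁆ := by
    refine sup_le ?_ ?_
    · rintro _ ⟨d, rfl⟩
      exact ⟨_, hhom (((rt n).comp (π n)).codRestrict _ (fun d => rt_mem π hab n d)) d, rfl⟩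
    · rintro _ ⟨d, rfl⟩
      exact ⟨_, hhom ((dd π hab n).codRestrict _ (fun d => dd_mem π hab n d)) d, rfl⟩
  rw [eq_top_iff]
  intro x _
  obtain ⟨y, hy, hyx⟩ := hall x.2
  have : y = x := Subtype.ext hyx
  rw [← this]; exact hy

/-- finite generation -/
lemma Gm_fg [Group.FG D] (n : ℕ) : Group.FG (Gm π hab n) := by
  rw [Group.fg_iff_subgroup_fg]
  apply Subgroup.FG.sup
  · exact (Group.fg_iff_subgroup_fg _).mp (Group.fg_range _)
  · exact (Group.fg_iff_subgroup_fg _).mp (Group.fg_range _)

end

end Pool.Agent.W5h84.Seg
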