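import Pool.Agent.W5h84.Rig.Main

/-!
# Normal subgroups of finite index in a wreath product `A wr_X G` with `A` perfect
-/

set_option linter.unusedSectionVars false

namespace Pool.Agent.W5h84.Seg

open Rig Rig.Wr
open scoped commutatorElement

variable {A G X : Type} [Group A] [Group G] [MulAction G X]

/-- the subgroup of the base group with all coordinates in `P` -/
def bs (P : Subgroup A) : Subgroup (Wr A G X) where
  carrier := {w | w.g = 1 ∧ ∀ i, w.b i ∈ P}
  mul_mem' := by
    rintro u v ⟨hu, hu'⟩ ⟨hv, hv'⟩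
    exact ⟨by simp [hu, hv], fun i => by rw [mul_b]; exact P.mul_mem (hu' _) (hv' _)⟩
  one_mem' := ⟨rfl, fun _ => P.one_mem⟩
  inv_mem' := by
    rintro u ⟨hu, hu'⟩
    exact ⟨by simp [hu], fun i => by rw [inv_b]; exact P.inv_mem (hu' _)⟩

lemma mem_bs (P : Subgroup A) (w : Wr A G X) : w ∈ bs P ↔ w.g = 1 ∧ ∀ i, w.b i ∈ P := Iff.rfl

lemma mem_of_dl {N : Subgroup (Wr A G X)} (w : Wr A G X) (hw : w.g = 1)
    (h : ∀ x, dl x (w.b x) ∈ N) : w ∈ N := by
  classical
  have key : ∀ (T : Finset X) (w : Wr A G X), w.g = 1 → (∀ x, dl x (w.b x) ∈ N) →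
      (∀ x, w.b x ≠ 1 → x ∈ T) → w ∈ N := by
    intro T
    induction T using Finset.induction_on with
    | empty =>
      intro w hw _ hT
      have : w = 1 := ext' (fun x => by
        by_contra h
        exact absurd (hT x h) (by simp)) hw
      rw [this]; exact N.one_mem
    | insert a T ha ih =>
      intro w hw hN hT
      have h1 : (dl a (w.b a))⁻¹ * w ∈ N := by
        apply ih
        · simp [hw]
        · intro x
          by_cases hxa : x = a
          · subst hxa
            have : ((dl x (w.b x))⁻¹ * w).b x = 1 := by simp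
            rw [this, map_one]; exact N.one_mem
          · have : ((dl a (w.b a))⁻¹ * w).b x = w.b x := by simp [dl_b_ne hxa]
            rw [this]; exact hN x
        · intro x hx
          by_cases hxa : x = a
          · subst hxa
            simp at hx
          · have : w.b x ≠ 1 := by
              intro h
              apply hx
              simp [h, dl_b_ne hxa]
            have h3 := hT x this
            rw [Finset.mem_insert] at h3
            exact h3.resolve_left hxa
      have h2 := N.mul_mem (hN a) h1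
      simpa using h2
  exact key w.fin.toFinset w hw h (fun x hx => by simpa using hx)

lemma bs_le {N : Subgroup (Wr A G X)} {P : Subgroup A} (h : ∀ x, P ≤ N.comap (dl x)) :
    bs P ≤ N := by
  intro w hw
  exact mem_of_dl w hw.1 (fun x => h x (hw.2 x))

lemma bs_normal {P : Subgroup A} (hP : P.Normal) : (bs P : Subgroup (Wr A G X)).Normal := by
  refine ⟨fun n hn u => ⟨?_, fun i => ?_⟩⟩
  · simp [hn.1]
  · simp only [mul_b, inv_b, mul_g, hn.1, mul_one]
    have : u.g • u.g⁻¹ • i = i := by simp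
    rw [this]
    exact hP.conj_mem _ (hn.2 _) _

/-- perfectness of the subgroups, first kind -/
lemma comm_comap (hA : ⁅(⊤ : Subgroup A), (⊤ : Subgroup A)⁆ = ⊤) (K : Subgroup G)
    (hKn : K.Normal) (hK : ⁅K, (⊤ : Subgroup G)⁆ = K) :
    ⁅K.comap (proj : Wr A G X →* G), (⊤ : Subgroup (Wr A G X))⁆ = K.comap proj := by
  have : (K.comap (proj : Wr A G X →* G)).Normal := hKn.comap _
  apply le_antisymm (Subgroup.commutator_le_left _ _)
  have hker : (proj : Wr A G X →* G).ker ≤
      ⁅K.comap (proj : Wr A G X →* G), (⊤ : Subgroup (Wr A G X))⁆ := by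
    intro w hw
    apply mem_of_dl w hw
    intro x
    have h1 : ⁅(⊤ : Subgroup A), (⊤ : Subgroup A)⁆ ≤
        Subgroup.comap (dl x) ⁅K.comap (proj : Wr A G X →* G), (⊤ : Subgroup (Wr A G X))⁆ := by
      rw [Subgroup.commutator_le]
      intro a _ b _
      rw [Subgroup.mem_comap, map_commutatorElement]
      apply Subgroup.commutator_mem_commutator
      · rw [Subgroup.mem_comap, proj_apply, dl_g]; exact K.one_mem
      · trivial
    rw [hA] at h1
    exact h1 (Subgroup.mem_top (w.b x))
  have h2 : Subgroup.comap proj (Subgroup.map proj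
      ⁅K.comap (proj : Wr A G X →* G), (⊤ : Subgroup (Wr A G X))⁆) =
      ⁅K.comap (proj : Wr A G X →* G), (⊤ : Subgroup (Wr A G X))⁆ :=
    Subgroup.comap_map_eq_self hker
  rw [← h2, Subgroup.map_commutator, Subgroup.map_comap_eq_self_of_surjective proj_surjective,
    Subgroup.map_top_of_surjective _ proj_surjective, hK]

/-- perfectness of the subgroups, second kind -/
lemma comm_bs (P : Subgroup A) (hPn : P.Normal) (hP : ⁅P, (⊤ : Subgroup A)⁆ = P) :
    ⁅(bs P : Subgroup (Wr A G X)), (⊤ : Subgroup (Wr A G X))⁆ = bs P := by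
  have : (bs P : Subgroup (Wr A G X)).Normal := bs_normal hPn
  apply le_antisymm (Subgroup.commutator_le_left _ _)
  apply bs_le
  intro x
  conv_lhs => rw [← hP]
  rw [Subgroup.commutator_le]
  intro a ha b _
  rw [Subgroup.mem_comap, map_commutatorElement]
  apply Subgroup.commutator_mem_commutator
  · refine ⟨rfl, fun i => ?_⟩
    by_cases h : i = x
    · subst h; simpa using ha
    · rw [dl_b_ne h]; exact P.one_mem
  · trivial

variable [MulAction.IsPretransitive G X]

/-- case (i): some element of `N` moves a point -/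
lemma ker_le_of_moves (hA : ⁅(⊤ : Subgroup A), (⊤ : Subgroup A)⁆ = ⊤)
    (N : Subgroup (Wr A G X)) (hN : N.Normal) (w : Wr A G X) (hw : w ∈ N) (i : X)
    (hi : w.g • i ≠ i) : (proj : Wr A G X →* G).ker ≤ N := by
  have h1 : ∀ x y : A, dl i ⁅x⁻¹, y⁆ ∈ N := by
    intro x y
    have hc : w * dl i x * w⁻¹ * (dl i x)⁻¹ ∈ N := by
      have h2 : dl i x * w⁻¹ * (dl i x)⁻¹ ∈ N := hN.conj_mem _ (N.inv_mem hw) _
      have h3 := N.mul_mem hw h2
      simpa [mul_assoc] using h3
    have hcb : (w * dl i x * w⁻¹ * (dl i x)⁻¹).b i = x⁻¹ := by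
      rw [conj_dl, ← map_inv, mul_b, dl_b_ne hi.symm]
      simp
    have hcg : (w * dl i x * w⁻¹ * (dl i x)⁻¹).g = 1 := by simp
    generalize w * dl i x * w⁻¹ * (dl i x)⁻¹ = c at hc hcb hcg
    have h4 : c * dl i y * c⁻¹ * (dl i y)⁻¹ ∈ N := by
      have h2 : dl i y * c⁻¹ * (dl i y)⁻¹ ∈ N := hN.conj_mem _ (N.inv_mem hc) _
      have h3 := N.mul_mem hc h2
      simpa [mul_assoc] using h3
    rw [conj_dl, hcg, one_smul, hcb, ← map_inv, ← map_mul] at h4
    simpa [commutatorElement_def, mul_assoc] using h4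
  have h2 : ∀ a : A, dl i a ∈ N := by
    have h3 : ⁅(⊤ : Subgroup A), (⊤ : Subgroup A)⁆ ≤ N.comap (dl i) := by
      rw [Subgroup.commutator_le]
      intro a _ b _
      have := h1 a⁻¹ b
      rw [inv_inv] at this
      exact this
    rw [hA] at h3
    exact fun a => h3 (Subgroup.mem_top a)
  have h3 : ∀ x (a : A), dl x a ∈ N := by
    intro x a
    obtain ⟨g, rfl⟩ := MulAction.exists_smul_eq G i x
    have h5 := hN.conj_mem _ (h2 a) (inr g)
    rw [conj_dl] at h5
    simpa using h5
  intro u hu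
  exact base_mem h3 u hu

/-- evaluation at a point on the base group -/
def ev (i : X) : (proj : Wr A G X →* G).ker →* A where
  toFun w := w.1.b i
  map_one' := rfl
  map_mul' u v := by
    change (u.1 * v.1).b i = _
    have : u.1.g = 1 := u.2
    rw [mul_b, this]; simp

lemma ev_surjective (i : X) : Function.Surjective (ev i : (proj : Wr A G X →* G).ker →* A) :=
  fun a => ⟨⟨(dl i a : Wr A G X), rfl⟩, dl_b_self (G := G) i a⟩

/-- case (ii): no element of `N` moves a point -/
lemma exists_P [Nonempty X] [Finite G] [Nontrivial G]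
    (N : Subgroup (Wr A G X)) (hN : N.Normal) (hN0 : N.index ≠ 0)
    (hfix : N ≤ (proj : Wr A G X →* G).ker) :
    ∃ P : Subgroup A, P.Normal ∧ P.index ≠ 0 ∧ P.index < N.index ∧ N ≤ bs P ∧
      (⁅P, (⊤ : Subgroup A)⁆ = P → N = bs P) := by
  obtain ⟨i0⟩ := (inferInstance : Nonempty X)
  set P : Subgroup A := (N.subgroupOf (proj : Wr A G X →* G).ker).map (ev i0) with hP
  have hmem : ∀ w ∈ N, w.b i0 ∈ P := by
    intro w hw
    exact ⟨⟨w, hfix hw⟩, Subgroup.mem_subgroupOf.mpr hw, rfl⟩
  have hmem' : ∀ p ∈ P, ∃ w ∈ N, w.b i0 = p := by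
    rintro p ⟨w, hw, rfl⟩
    exact ⟨w.1, Subgroup.mem_subgroupOf.mp hw, rfl⟩
  have hNs : (N.subgroupOf (proj : Wr A G X →* G).ker).Normal := hN.subgroupOf _
  have hPn : P.Normal := hNs.map _ (ev_surjective i0)
  have hrel : N.relIndex (proj : Wr A G X →* G).ker * (proj : Wr A G X →* G).ker.index =
    N.index := Subgroup.relIndex_mul_index hfix
  have hrel0 : N.relIndex (proj : Wr A G X →* G).ker ≠ 0 := by
    intro h; rw [h, zero_mul] at hrel; exact hN0 hrel.symm
  have hPdvd : P.index ∣ N.relIndex (proj : Wr A G X →* G).ker := by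
    rw [← Subgroup.index_comap_of_surjective P (ev_surjective (A := A) (G := G) (X := X) i0)]
    exact Subgroup.index_dvd_of_le (Subgroup.le_comap_map _ _)
  have hP0 : P.index ≠ 0 := by
    intro h
    rw [h] at hPdvd
    exact hrel0 (Nat.eq_zero_of_zero_dvd hPdvd)
  have hker2 : 2 ≤ (proj : Wr A G X →* G).ker.index := by
    rw [Subgroup.index_ker, MonoidHom.range_eq_top_of_surjective _ proj_surjective]
    have h1 : Nat.card (⊤ : Subgroup G) = Nat.card G := Nat.card_congr Subgroup.topEquiv.toEquiv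
    rw [h1]
    exact (Finite.one_lt_card : 1 < Nat.card G)
  have hle : N ≤ bs P := by
    intro w hw
    refine ⟨hfix hw, fun i => ?_⟩
    obtain ⟨g, hg⟩ := MulAction.exists_smul_eq G i i0
    have h5 := hmem _ (hN.conj_mem _ hw (inr g))
    have h6 : (inr g * w * (inr g)⁻¹).b i0 = w.b i := by
      have hw1 : w.g = 1 := hfix hw
      have : g⁻¹ • i0 = i := by rw [← hg]; simp
      simp [this]
    rwa [h6] at h5
  refine ⟨P, hPn, hP0, ?_, hle, ?_⟩
  · have h1 : P.index ≤ N.relIndex (proj : Wr A G X →* G).ker :=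
      Nat.le_of_dvd (Nat.pos_of_ne_zero hrel0) hPdvd
    have h2 : 0 < N.relIndex (proj : Wr A G X →* G).ker := Nat.pos_of_ne_zero hrel0
    rw [← hrel]
    nlinarith
  · intro hcomm
    apply le_antisymm hle
    apply bs_le
    intro x
    obtain ⟨g, rfl⟩ := MulAction.exists_smul_eq G i0 x
    conv_lhs => rw [← hcomm]
    rw [Subgroup.commutator_le]
    intro p hp a _
    obtain ⟨w, hw, rfl⟩ := hmem' p hp
    have hw1 : w.g = 1 := hfix hw
    have h1 : dl i0 ⁅w.b i0, a⁆ ∈ N := by
      have h2 : dl i0 a * w⁻¹ * (dl i0 a)⁻¹ ∈ N := hN.conj_mem _ (N.inv_mem hw) _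
      have h3 := N.mul_mem hw h2
      have h4 : w * (dl i0 a * w⁻¹ * (dl i0 a)⁻¹) = dl i0 ⁅w.b i0, a⁆ := by
        rw [commutatorElement_def, ← mul_assoc, ← mul_assoc, conj_dl, hw1, one_smul, ← map_inv,
          ← map_mul]
      rwa [h4] at h3
    have h5 := hN.conj_mem _ h1 (inr g)
    rw [conj_dl] at h5
    rw [Subgroup.mem_comap]
    simpa using h5

lemma bs_index_ne_zero [Finite X] [Finite G] (P : Subgroup A) (hP : P.index ≠ 0) :
    (bs P : Subgroup (Wr A G X)).index ≠ 0 := by
  have hle : (bs P : Subgroup (Wr A G X)) ≤ (proj : Wr A G X →* G).ker := fun w hw => hw.1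
  rw [← Subgroup.relIndex_mul_index hle]
  apply mul_ne_zero
  · have : (bs P : Subgroup (Wr A G X)).subgroupOf (proj : Wr A G X →* G).ker =
        ⨅ i : X, P.comap (ev i) := by
      ext w
      rw [Subgroup.mem_subgroupOf, Subgroup.mem_iInf]
      constructor
      · intro h i
        exact h.2 i
      · intro h
        exact ⟨w.2, h⟩
    rw [Subgroup.relIndex, this]
    apply Subgroup.index_iInf_ne_zero
    intro i
    rw [Subgroup.index_comap_of_surjective _ (ev_surjective i)]
    exact hP
  · rw [Subgroup.index_ker]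
    exact Nat.card_pos.ne'

lemma bs_mono {P P' : Subgroup A} (h : P ≤ P') : (bs P : Subgroup (Wr A G X)) ≤ bs P' :=
  fun _ hw => ⟨hw.1, fun i => h (hw.2 i)⟩

lemma bs_inj [Nonempty X] {P P' : Subgroup A} (h : (bs P : Subgroup (Wr A G X)) ≤ bs P') :
    P ≤ P' := by
  obtain ⟨i0⟩ := (inferInstance : Nonempty X)
  intro p hp
  have : (dl i0 p : Wr A G X) ∈ bs P := by
    refine ⟨rfl, fun i => ?_⟩
    by_cases h : i = i0
    · subst h; simpa using hp
    · rw [dl_b_ne h]; exact P.one_mem
  have h2 := (h this).2 i0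
  simpa using h2

end Pool.Agent.W5h84.Seg
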