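import Pool.Agent.W5h84.Seg.Step

/-!
# Towers of iterated wreath products: normal subgroups of finite index
-/

set_option linter.unusedSectionVars false

namespace Pool.Agent.W5h84.Seg

open Rig Rig.Wr

/-- A tower `Γ n ≃ Γ (n+1) wr G n` of perfect groups, with compatible automorphisms, such that
the finite groups `G n` have many normal subgroups, but few invariant ones. -/
structure Tower where
  Γ : ℕ → Type
  G : ℕ → Type
  Ω : ℕ → Type
  gΓ : ∀ n, Group (Γ n)
  gG : ∀ n, Group (G n)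
  aΩ : ∀ n, MulAction (G n) (Ω n)
  fG : ∀ n, Finite (G n)
  fΩ : ∀ n, Finite (Ω n)
  nG : ∀ n, Nontrivial (G n)
  neΩ : ∀ n, Nonempty (Ω n)
  tΩ : ∀ n, MulAction.IsPretransitive (G n) (Ω n)
  faith : ∀ n, Faithful' (G n) (Ω n)
  e : ∀ n, Γ n ≃* Wr (Γ (n + 1)) (G n) (Ω n)
  perf : ∀ n, ⁅(⊤ : Subgroup (Γ n)), (⊤ : Subgroup (Γ n))⁆ = ⊤
  sub : ∀ n (K : Subgroup (G n)), K.Normal → ⁅K, (⊤ : Subgroup (G n))⁆ = K
  τ : ∀ n, MulAut (Γ n)
  θ : ∀ n, MulAut (G n)
  σ : ∀ n, Equiv.Perm (Ω n)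
  hg : ∀ n x, (e n (τ n x)).g = θ n (e n x).g
  hb : ∀ n x i, (e n (τ n x)).b (σ n i) = τ (n + 1) ((e n x).b i)
  p : ℕ → ℕ
  hp : ∀ n, 2 ^ n ≤ p n
  Kt : ∀ n, Fin (p n) → Subgroup (G n)
  Kt_inj : ∀ n, Function.Injective (Kt n)
  Kt_normal : ∀ n t, (Kt n t).Normal
  code : ∀ n, Subgroup (G n) → Fin 5
  code_inj : ∀ n (K K' : Subgroup (G n)), K.Normal → K'.Normal →
    K.map (θ n).toMonoidHom = K → K'.map (θ n).toMonoidHom = K' → code n K = code n K' → K = K'

attribute [instance] Tower.gΓ Tower.gG Tower.aΩ Tower.fG Tower.fΩ Tower.nG Tower.neΩ Tower.tΩ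

namespace Tower

variable (T : Tower)

/-- the subgroup of level `j` given by the family `K` -/
def Lv (K : ∀ m, Subgroup (T.G m)) : ℕ → ∀ n, Subgroup (T.Γ n)
  | 0, n => (K n).comap ((proj : Wr (T.Γ (n + 1)) (T.G n) (T.Ω n) →* T.G n).comp
      (T.e n).toMonoidHom)
  | j + 1, n => (bs (Lv K j (n + 1))).comap (T.e n).toMonoidHom

variable {T}

lemma mem_Lv_zero {K : ∀ m, Subgroup (T.G m)} {n : ℕ} {x : T.Γ n} :
    x ∈ T.Lv K 0 n ↔ (T.e n x).g ∈ K n := Iff.rfl

lemma mem_Lv_succ {K : ∀ m, Subgroup (T.G m)} {j n : ℕ} {x : T.Γ n} :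
    x ∈ T.Lv K (j + 1) n ↔ (T.e n x).g = 1 ∧ ∀ i, (T.e n x).b i ∈ T.Lv K j (n + 1) := Iff.rfl

lemma Lv_mono {K K' : ∀ m, Subgroup (T.G m)} (j : ℕ) :
    ∀ n, K (n + j) ≤ K' (n + j) → T.Lv K j n ≤ T.Lv K' j n := by
  induction j with
  | zero => intro n h x hx; exact h hx
  | succ j ih =>
    intro n h x hx
    rw [mem_Lv_succ] at hx ⊢
    refine ⟨hx.1, fun i => ih (n + 1) ?_ (hx.2 i)⟩
    have : n + 1 + j = n + (j + 1) := by omega
    rw [this]; exact h

lemma Lv_congr {K K' : ∀ m, Subgroup (T.G m)} {j n : ℕ} (h : K (n + j) = K' (n + j)) :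
    T.Lv K j n = T.Lv K' j n :=
  le_antisymm (Lv_mono j n h.le) (Lv_mono j n h.ge)

lemma Lv_inj {K K' : ∀ m, Subgroup (T.G m)} (j : ℕ) :
    ∀ n, T.Lv K j n ≤ T.Lv K' j n → K (n + j) ≤ K' (n + j) := by
  induction j with
  | zero =>
    intro n h g hg
    have h1 : (T.e n).symm (inr g) ∈ T.Lv K 0 n := by
      rw [mem_Lv_zero, MulEquiv.apply_symm_apply]; exact hg
    have h2 := h h1
    rw [mem_Lv_zero, MulEquiv.apply_symm_apply] at h2
    exact h2
  | succ j ih =>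
    intro n h
    have h1 : T.Lv K j (n + 1) ≤ T.Lv K' j (n + 1) := by
      apply bs_inj (G := T.G n) (X := T.Ω n)
      intro w hw
      have h1 : (T.e n).symm w ∈ T.Lv K (j + 1) n := by
        rw [mem_Lv_succ, MulEquiv.apply_symm_apply]; exact hw
      have h2 := h h1
      rw [mem_Lv_succ, MulEquiv.apply_symm_apply] at h2
      exact h2
    have h2 := ih (n + 1) h1
    have : n + 1 + j = n + (j + 1) := by omega
    rw [this] at h2
    exact h2

lemma Lv_bot (j : ℕ) : ∀ n, T.Lv (fun _ => ⊥) j n = T.Lv (fun _ => ⊤) (j + 1) n := by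
  induction j with
  | zero =>
    intro n
    ext x
    rw [mem_Lv_succ, mem_Lv_zero]
    simp [mem_Lv_zero]
  | succ j ih =>
    intro n
    ext x
    rw [mem_Lv_succ, mem_Lv_succ, ih]

lemma Lv_index_ne_zero (K : ∀ m, Subgroup (T.G m)) (j : ℕ) : ∀ n, (T.Lv K j n).index ≠ 0 := by
  induction j with
  | zero =>
    intro n
    have : (T.Lv K 0 n).index = (K n).index :=
      Subgroup.index_comap_of_surjective _ (fun g => ⟨(T.e n).symm (inr g), by simp⟩)
    rw [this]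
    exact Subgroup.index_ne_zero_of_finite
  | succ j ih =>
    intro n
    have : (T.Lv K (j + 1) n).index = (bs (T.Lv K j (n + 1)) :
        Subgroup (Wr (T.Γ (n + 1)) (T.G n) (T.Ω n))).index :=
      Subgroup.index_comap_of_surjective _ (T.e n).surjective
    rw [this]
    exact bs_index_ne_zero _ (ih (n + 1))

lemma Lv_normal (K : ∀ m, Subgroup (T.G m)) (hK : ∀ m, (K m).Normal) (j : ℕ) :
    ∀ n, (T.Lv K j n).Normal := by
  induction j with
  | zero => intro n; exact (hK n).comap _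
  | succ j ih => intro n; exact (bs_normal (ih (n + 1))).comap _

/-- classification of the normal subgroups of finite index -/
theorem classify (idx : ℕ) : ∀ (n : ℕ) (N : Subgroup (T.Γ n)), N.Normal → N.index = idx →
    idx ≠ 0 → (⁅N, (⊤ : Subgroup (T.Γ n))⁆ = N ∧ ∃ (j : ℕ) (K : ∀ m, Subgroup (T.G m)),
      (∀ m, (K m).Normal) ∧ N = T.Lv K j n) := by
  induction idx using Nat.strong_induction_on with
  | _ idx ih =>
  intro n N hN hidx hidx0
  set N' : Subgroup (Wr (T.Γ (n + 1)) (T.G n) (T.Ω n)) := N.comap (T.e n).symm.toMonoidHom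
    with hN'
  have hNN' : N = N'.comap (T.e n).toMonoidHom := by
    ext x
    rw [hN', Subgroup.mem_comap, Subgroup.mem_comap]
    simp
  have hNN'' : N = N'.map (T.e n).symm.toMonoidHom := by
    rw [hN', Subgroup.map_comap_eq_self_of_surjective (T.e n).symm.surjective]
  have hN'n : N'.Normal := hN.comap _
  have hN'idx : N'.index = N.index :=
    Subgroup.index_comap_of_surjective _ (T.e n).symm.surjective
  have hcomm : ⁅N', (⊤ : Subgroup (Wr (T.Γ (n + 1)) (T.G n) (T.Ω n)))⁆ = N' →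
      ⁅N, (⊤ : Subgroup (T.Γ n))⁆ = N := by
    intro h
    have h1 : Subgroup.map (T.e n).symm.toMonoidHom
        ⁅N', (⊤ : Subgroup (Wr (T.Γ (n + 1)) (T.G n) (T.Ω n)))⁆ = N := by rw [h, ← hNN'']
    rw [Subgroup.map_commutator, ← hNN'',
      Subgroup.map_top_of_surjective _ (T.e n).symm.surjective] at h1
    exact h1
  by_cases hcase : ∃ w ∈ N', ∃ i : T.Ω n, w.g • i ≠ i
  · obtain ⟨w, hw, i, hi⟩ := hcase
    have hker := ker_le_of_moves (T.perf (n + 1)) N' hN'n w hw i hi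
    have hN'K : N' = (N'.map proj).comap proj := (Subgroup.comap_map_eq_self hker).symm
    have hKn : (N'.map (proj : Wr (T.Γ (n + 1)) (T.G n) (T.Ω n) →* T.G n)).Normal :=
      hN'n.map _ proj_surjective
    generalize N'.map (proj : Wr (T.Γ (n + 1)) (T.G n) (T.Ω n) →* T.G n) = K0 at hN'K hKn
    refine ⟨hcomm ?_, 0, Function.update (fun m => (⊥ : Subgroup (T.G m))) n K0, ?_, ?_⟩
    · rw [hN'K]
      exact comm_comap (T.perf (n + 1)) K0 hKn (T.sub n K0 hKn)
    · intro m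
      by_cases h : m = n
      · subst h
        rw [Function.update_self]; exact hKn
      · rw [Function.update_of_ne h]; infer_instance
    · ext x
      rw [mem_Lv_zero, Function.update_self, hNN', hN'K]
      rfl
  · push Not at hcase
    have hfix : N' ≤ (proj : Wr (T.Γ (n + 1)) (T.G n) (T.Ω n) →* T.G n).ker :=
      fun w hw => T.faith n _ (hcase w hw)
    obtain ⟨P, hPn, hP0, hPlt, hPle, hPeq⟩ := exists_P N' hN'n
      (by rw [hN'idx, hidx]; exact hidx0) hfix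
    obtain ⟨hPc, j, K, hKn, hPK⟩ := ih P.index (by rw [← hidx, ← hN'idx]; exact hPlt) (n + 1)
      P hPn rfl hP0
    have hN'P := hPeq hPc
    refine ⟨hcomm ?_, j + 1, K, hKn, ?_⟩
    · rw [hN'P]
      exact comm_bs P hPn hPc
    · rw [hNN', hN'P, hPK]
      rfl

lemma Lv_tau (K : ∀ m, Subgroup (T.G m)) (j : ℕ) : ∀ (n : ℕ) (x : T.Γ n),
    T.τ n x ∈ T.Lv (fun m => (K m).map (T.θ m).toMonoidHom) j n ↔ x ∈ T.Lv K j n := by
  induction j with
  | zero =>
    intro n x
    rw [mem_Lv_zero, mem_Lv_zero, T.hg]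
    constructor
    · rintro ⟨g, hg, hg2⟩
      have : g = (T.e n x).g := (T.θ n).injective hg2
      rwa [← this]
    · intro h
      exact ⟨_, h, rfl⟩
  | succ j ih =>
    intro n x
    rw [mem_Lv_succ, mem_Lv_succ, T.hg]
    refine and_congr (by simp) ?_
    constructor
    · intro h i
      have := h (T.σ n i)
      rw [T.hb, ih] at this
      exact this
    · intro h i
      obtain ⟨i, rfl⟩ := (T.σ n).surjective i
      rw [T.hb, ih]
      exact h i

lemma Lv_map_tau (K : ∀ m, Subgroup (T.G m)) (j n : ℕ) :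
    (T.Lv K j n).map (T.τ n).toMonoidHom =
      T.Lv (fun m => (K m).map (T.θ m).toMonoidHom) j n := by
  ext x
  obtain ⟨x, rfl⟩ := (T.τ n).surjective x
  rw [Lv_tau]
  constructor
  · rintro ⟨y, hy, hy2⟩
    have : y = x := (T.τ n).injective hy2
    rwa [← this]
  · intro h
    exact ⟨x, h, rfl⟩

/-- index of the level stabilisers -/
noncomputable def s (T : Tower) (j : ℕ) : ℕ := (T.Lv (fun _ => ⊤) j 0).index

lemma s_strictMono : StrictMono T.s := by
  apply strictMono_nat_of_lt_succ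
  intro j
  have h1 : T.Lv (fun _ => ⊤) (j + 1) 0 < T.Lv (fun _ => ⊤) j 0 := by
    rw [← Lv_bot]
    refine lt_of_le_not_ge (Lv_mono j 0 bot_le) ?_
    intro h
    have h2 := Lv_inj j 0 h
    have h3 : (⊥ : Subgroup (T.G (0 + j))) = ⊤ := le_antisymm bot_le h2
    exact bot_ne_top h3
  have : (T.Lv (fun _ => ⊤) (j + 1) 0).FiniteIndex := ⟨Lv_index_ne_zero _ _ _⟩
  exact Subgroup.index_strictAnti h1

/-- the number of full levels of index at most `x` -/
noncomputable def J (T : Tower) (x : ℕ) : ℕ := Nat.findGreatest (fun j => T.s j ≤ x) x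

lemma le_J {j x : ℕ} (h : T.s j ≤ x) : j ≤ T.J x :=
  Nat.le_findGreatest ((s_strictMono.le_apply).trans h) h

lemma s_J_le {x : ℕ} (hx : 1 ≤ x) : T.s (T.J x) ≤ x := by
  have h0 : T.s 0 ≤ x := by
    have : T.s 0 = 1 := by
      rw [s, Subgroup.index_eq_one]
      ext y
      rw [mem_Lv_zero]
      simp
    rw [this]; exact hx
  exact Nat.findGreatest_spec (P := fun j => T.s j ≤ x) (Nat.zero_le x) h0

theorem TCount_le (x : ℕ) : TCount (T.Γ 0) (T.τ 0) x ≤ 5 * (T.J x + 1) := by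
  classical
  have key : ∀ N : {N : Subgroup (T.Γ 0) // N.Normal ∧ N.map (T.τ 0).toMonoidHom = N ∧
      N.index ≠ 0 ∧ N.index ≤ x}, ∃ (j : ℕ) (K : ∀ m, Subgroup (T.G m)),
      j < T.J x + 1 ∧ (∀ m, (K m).Normal) ∧ N.1 = T.Lv K j 0 ∧
        (K j).map (T.θ j).toMonoidHom = K j := by
    rintro ⟨N, hN, hτ, hN0, hNx⟩
    obtain ⟨_, j, K, hK, hNK⟩ := classify N.index 0 N hN rfl hN0
    refine ⟨j, K, ?_, hK, hNK, ?_⟩
    · have h1 : T.s j ≤ x := by
        have h2 : T.s j ∣ N.index := by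
          rw [hNK]
          exact Subgroup.index_dvd_of_le (Lv_mono j 0 le_top)
        exact (Nat.le_of_dvd (Nat.pos_of_ne_zero hN0) h2).trans hNx
      have := le_J h1
      omega
    · rw [hNK, Lv_map_tau] at hτ
      have h1 := le_antisymm (Lv_inj j 0 hτ.le) (Lv_inj j 0 hτ.ge)
      rw [Nat.zero_add] at h1
      exact h1
  choose jf Kf h1 h2 h3 h4 using key
  have hinj : Function.Injective (fun N => ((⟨jf N, h1 N⟩ : Fin (T.J x + 1)),
      T.code (jf N) (Kf N (jf N)))) := by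
    intro N M hNM
    simp only [Prod.mk.injEq, Fin.mk.injEq] at hNM
    obtain ⟨hj, hc⟩ := hNM
    apply Subtype.ext
    have hM3 := h3 M
    have hM4 := h4 M
    have hM2 := h2 M
    generalize jf M = j' at hj hc hM3 hM4
    subst hj
    have h5 := T.code_inj _ _ _ (h2 N _) (hM2 _) (h4 N) hM4 hc
    rw [h3 N, hM3]
    apply Lv_congr
    rw [Nat.zero_add]
    exact h5
  have := Nat.card_le_card_of_injective _ hinj
  unfold TCount
  refine this.trans ?_
  rw [Nat.card_prod, Nat.card_fin, Nat.card_fin]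
  omega

theorem le_NCount [Group.FG (T.Γ 0)] (x j : ℕ) (hj : T.s (j + 1) ≤ x) :
    T.p j ≤ NCount (T.Γ 0) x := by
  classical
  have hfin := finite_normal (T.Γ 0) x
  have hle : ∀ K : ∀ m, Subgroup (T.G m), (T.Lv K j 0).index ≤ x := by
    intro K
    have h1 : (T.Lv K j 0).index ∣ T.s (j + 1) := by
      rw [s, ← Lv_bot]
      exact Subgroup.index_dvd_of_le (Lv_mono j 0 bot_le)
    exact (Nat.le_of_dvd (Nat.pos_of_ne_zero (Lv_index_ne_zero _ _ _)) h1).trans hj
  have hn : ∀ (t : Fin (T.p j)) (m : ℕ),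
      ((Function.update (fun m => (⊥ : Subgroup (T.G m))) j (T.Kt j t)) m).Normal := by
    intro t m
    by_cases h : m = j
    · subst h
      rw [Function.update_self]; exact T.Kt_normal _ _
    · rw [Function.update_of_ne h]; infer_instance
  have hinj : Function.Injective (fun t : Fin (T.p j) =>
      (⟨T.Lv (Function.update (fun m => (⊥ : Subgroup (T.G m))) j (T.Kt j t)) j 0,
        Lv_normal _ (hn t) _ _, Lv_index_ne_zero _ _ _, hle _⟩ :
        {N : Subgroup (T.Γ 0) // N.Normal ∧ N.index ≠ 0 ∧ N.index ≤ x})) := by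
    intro t u htu
    simp only [Subtype.mk.injEq] at htu
    have h1 := le_antisymm (Lv_inj j 0 htu.le) (Lv_inj j 0 htu.ge)
    rw [Nat.zero_add, Function.update_self, Function.update_self] at h1
    exact T.Kt_inj j h1
  have := Nat.card_le_card_of_injective _ hinj
  rw [Nat.card_fin] at this
  exact this

lemma poly_lt_exp (C : ℕ) : ∃ j0 : ℕ, ∀ j ≥ j0, (5 * (j + 1 + 1)) ^ C < 2 ^ j := by
  have h := tendsto_pow_const_div_const_pow_of_one_lt C (one_lt_two (α := ℝ))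
  have h2 : ∀ᶠ n : ℕ in Filter.atTop, (n : ℝ) ^ C / 2 ^ n < 1 / (4 * 5 ^ C) :=
    h.eventually_lt_const (by positivity)
  obtain ⟨n0, hn0⟩ := Filter.eventually_atTop.mp h2
  refine ⟨n0, fun j hj => ?_⟩
  have h3 := hn0 (j + 2) (by omega)
  rw [div_lt_div_iff₀ (by positivity) (by positivity)] at h3
  have h4 : ((5 * (j + 1 + 1) : ℕ) : ℝ) ^ C < 2 ^ j := by
    push_cast at h3 ⊢
    have h5 : ((5 : ℝ) * (j + 1 + 1)) ^ C = 5 ^ C * (j + 2) ^ C := by
      rw [mul_pow]; ring_nf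
    rw [h5]
    have h6 : (2 : ℝ) ^ (j + 2) = 4 * 2 ^ j := by ring
    rw [h6] at h3
    nlinarith
  exact_mod_cast h4

/-- the counting theorem -/
theorem count [Group.FG (T.Γ 0)] (C : ℕ) : ∃ x0 : ℕ, ∀ x ≥ x0,
    (TCount (T.Γ 0) (T.τ 0) x) ^ C < NCount (T.Γ 0) x := by
  obtain ⟨j0, hj0⟩ := poly_lt_exp C
  refine ⟨max 1 (T.s (j0 + 1)), fun x hx => ?_⟩
  have hx1 : 1 ≤ x := le_trans (le_max_left _ _) hx
  have hJ : j0 + 1 ≤ T.J x := le_J (le_trans (le_max_right _ _) hx)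
  obtain ⟨j, hj⟩ : ∃ j, T.J x = j + 1 := ⟨T.J x - 1, by omega⟩
  have h1 := s_J_le (T := T) hx1
  rw [hj] at h1
  calc (TCount (T.Γ 0) (T.τ 0) x) ^ C ≤ (5 * (T.J x + 1)) ^ C :=
        Nat.pow_le_pow_left (TCount_le x) C
    _ = (5 * (j + 1 + 1)) ^ C := by rw [hj]
    _ < 2 ^ j := hj0 j (by omega)
    _ ≤ T.p j := T.hp j
    _ ≤ NCount (T.Γ 0) x := le_NCount x j h1

end Tower

end Pool.Agent.W5h84.Seg
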